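import Mathlib

namespace Pool.Agent.Helper194.MUP

open Filter Topology Set

variable {X Y : Type*} [NormedAddCommGroup X] [NormedSpace ℝ X]
  [NormedAddCommGroup Y] [NormedSpace ℝ Y]

/-- `v` restricts to a surjective isometry of the unit spheres. -/
structure SphIso (v : X → Y) : Prop where
  norm_eq : ∀ x, ‖x‖ = 1 → ‖v x‖ = 1
  dist_eq : ∀ x y, ‖x‖ = 1 → ‖y‖ = 1 → ‖v x - v y‖ = ‖x - y‖
  surj : ∀ y, ‖y‖ = 1 → ∃ x, ‖x‖ = 1 ∧ v x = y

/-- the norm agrees with the functional `p` on the ball of radius `r` around `x`. -/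
def Flat (p : X →L[ℝ] ℝ) (x : X) (r : ℝ) : Prop := 0 < r ∧ ∀ z, ‖z - x‖ < r → ‖z‖ = p z

theorem Flat.pos {p : X →L[ℝ] ℝ} {x : X} {r : ℝ} (h : Flat p x r) : 0 < r := h.1

theorem Flat.self {p : X →L[ℝ] ℝ} {x : X} {r : ℝ} (h : Flat p x r) : ‖x‖ = p x :=
  h.2 x (by simpa using h.1)

theorem Flat.mono {p : X →L[ℝ] ℝ} {x : X} {r s : ℝ} (h : Flat p x r) (hs : 0 < s) (hsr : s ≤ r) :
    Flat p x s := ⟨hs, fun z hz => h.2 z (lt_of_lt_of_le hz hsr)⟩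

theorem Flat.le_norm {p : X →L[ℝ] ℝ} {x : X} {r : ℝ} (h : Flat p x r) (z : X) : p z ≤ ‖z‖ := by
  obtain ⟨hr, hf⟩ := h
  by_cases hz : z = 0
  · simp [hz]
  have hz' : 0 < ‖z‖ := norm_pos_iff.mpr hz
  set t : ℝ := r / (2 * ‖z‖) with ht
  have ht0 : 0 < t := by positivity
  have h1 : ‖x + t • z‖ = p (x + t • z) := by
    apply hf
    rw [add_sub_cancel_left, norm_smul, Real.norm_of_nonneg ht0.le, ht]
    field_simp
    linarith
  have h2 : ‖x‖ = p x := hf x (by simpa using hr)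
  have h3 : ‖x + t • z‖ ≤ ‖x‖ + t * ‖z‖ := by
    calc ‖x + t • z‖ ≤ ‖x‖ + ‖t • z‖ := norm_add_le _ _
      _ = ‖x‖ + t * ‖z‖ := by rw [norm_smul, Real.norm_of_nonneg ht0.le]
  rw [h1, map_add, map_smul, smul_eq_mul, h2] at h3
  have h4 : t * p z ≤ t * ‖z‖ := by linarith
  exact le_of_mul_le_mul_left h4 ht0

theorem Flat.abs_le_norm {p : X →L[ℝ] ℝ} {x : X} {r : ℝ} (h : Flat p x r) (z : X) :
    |p z| ≤ ‖z‖ := by
  rw [abs_le]
  constructor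
  · have := h.le_norm (-z)
    rw [map_neg, norm_neg] at this
    linarith
  · exact h.le_norm z

/-- flatness propagates towards any point of the facet. -/
theorem Flat.segment {p : X →L[ℝ] ℝ} {x y : X} {r : ℝ} (h : Flat p x r)
    (hy : ‖y‖ = p y) {t : ℝ} (ht0 : 0 ≤ t) (ht1 : t < 1) :
    Flat p ((1 - t) • x + t • y) ((1 - t) * r) := by
  have h1t : 0 < 1 - t := by linarith
  refine ⟨mul_pos h1t h.1, fun z hz => ?_⟩
  apply le_antisymm _ (h.le_norm z)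
  obtain ⟨w, hw⟩ : ∃ w : X, w = (1 - t)⁻¹ • (z - t • y) := ⟨_, rfl⟩
  have hzw : z = (1 - t) • w + t • y := by
    rw [hw, smul_smul, mul_inv_cancel₀ h1t.ne', one_smul]
    abel
  have hwx : ‖w - x‖ < r := by
    have : w - x = (1 - t)⁻¹ • (z - ((1 - t) • x + t • y)) := by
      rw [hw, ← sub_sub, smul_sub, smul_sub, smul_sub, smul_smul (1 - t)⁻¹ (1 - t) x,
        inv_mul_cancel₀ h1t.ne', one_smul]
      abel
    rw [this, norm_smul, Real.norm_of_nonneg (inv_nonneg.mpr h1t.le)]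
    rw [inv_mul_lt_iff₀ h1t]
    exact hz
  calc ‖z‖ = ‖(1 - t) • w + t • y‖ := by rw [← hzw]
    _ ≤ ‖(1 - t) • w‖ + ‖t • y‖ := norm_add_le _ _
    _ = (1 - t) * ‖w‖ + t * ‖y‖ := by
      rw [norm_smul, norm_smul, Real.norm_of_nonneg h1t.le, Real.norm_of_nonneg ht0]
    _ = p z := by
      rw [h.2 w hwx, hy]
      conv_rhs => rw [hzw]
      rw [map_add, map_smul, map_smul, smul_eq_mul, smul_eq_mul]

/-- additivity of the norm on the cone spanned by two unit vectors with a norm two sum. -/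
theorem norm_smul_add_smul {a b : X} (ha : ‖a‖ = 1) (hb : ‖b‖ = 1) (hab : ‖a + b‖ = 2)
    {s t : ℝ} (hs : 0 ≤ s) (ht : 0 ≤ t) : ‖s • a + t • b‖ = s + t := by
  apply le_antisymm
  · calc ‖s • a + t • b‖ ≤ ‖s • a‖ + ‖t • b‖ := norm_add_le _ _
      _ = s + t := by
        rw [norm_smul, norm_smul, ha, hb, Real.norm_of_nonneg hs, Real.norm_of_nonneg ht]; ring
  · rcases le_total s t with h | h
    · have e : s • a + t • b = t • (a + b) - (t - s) • a := by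
        rw [smul_add, sub_smul]; abel
      have h1 : ‖t • (a + b)‖ = 2 * t := by
        rw [norm_smul, hab, Real.norm_of_nonneg ht]; ring
      have h2 : ‖(t - s) • a‖ = t - s := by
        rw [norm_smul, ha, Real.norm_of_nonneg (by linarith)]; ring
      have h3 := norm_sub_norm_le (t • (a + b)) ((t - s) • a)
      rw [← e, h1, h2] at h3
      linarith
    · have e : s • a + t • b = s • (a + b) - (s - t) • b := by
        rw [smul_add, sub_smul]; abel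
      have h1 : ‖s • (a + b)‖ = 2 * s := by
        rw [norm_smul, hab, Real.norm_of_nonneg hs]; ring
      have h2 : ‖(s - t) • b‖ = s - t := by
        rw [norm_smul, hb, Real.norm_of_nonneg (by linarith)]; ring
      have h3 := norm_sub_norm_le (s • (a + b)) ((s - t) • b)
      rw [← e, h1, h2] at h3
      linarith

/-- Lemma A, first part. -/
theorem pair_sum {v : X → Y} (hv : SphIso v) {p : X →L[ℝ] ℝ} {x₀ : X} {r : ℝ}
    (h : Flat p x₀ r) {x₁ x₂ : X} (h1 : ‖x₁‖ = 1) (h2 : ‖x₂‖ = 1)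
    (d1 : ‖x₁ - x₀‖ < r / 3) (d2 : ‖x₂ - x₀‖ < r / 3) : ‖v x₁ + v x₂‖ = 2 := by
  have hr := h.1
  obtain ⟨z, hz1, hz⟩ := hv.surj (-(v x₁)) (by rw [norm_neg]; exact hv.norm_eq _ h1)
  have e1 : ‖x₁ - z‖ = 2 := by
    rw [← hv.dist_eq _ _ h1 hz1, hz, sub_neg_eq_add, ← two_smul ℝ, norm_smul, hv.norm_eq _ h1]
    norm_num
  have p1 : p x₁ = 1 := by rw [← h.2 x₁ (by linarith), h1]
  have p2 : p x₂ = 1 := by rw [← h.2 x₂ (by linarith), h2]
  set u := x₂ - x₁ with hu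
  have hun : ‖(x₁ - u) - x₀‖ < r := by
    have : (x₁ - u) - x₀ = (x₁ - x₀) + ((x₁ - x₀) - (x₂ - x₀)) := by rw [hu]; abel
    rw [this]
    calc _ ≤ ‖x₁ - x₀‖ + ‖(x₁ - x₀) - (x₂ - x₀)‖ := norm_add_le _ _
      _ ≤ ‖x₁ - x₀‖ + (‖x₁ - x₀‖ + ‖x₂ - x₀‖) := by
        have := norm_sub_le (x₁ - x₀) (x₂ - x₀)
        linarith
      _ < r := by linarith
  have e2 : ‖x₁ - u‖ = 1 := by
    rw [h.2 _ hun, map_sub, hu, map_sub, p1, p2]; ring
  have e3 : ‖x₁ - u - z‖ ≤ 2 := by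
    calc ‖x₁ - u - z‖ ≤ ‖x₁ - u‖ + ‖z‖ := norm_sub_le _ _
      _ = 2 := by rw [e2, hz1]; norm_num
  have e4 : ‖x₂ - z‖ ≤ 2 := by
    calc ‖x₂ - z‖ ≤ ‖x₂‖ + ‖z‖ := norm_sub_le _ _
      _ = 2 := by rw [h2, hz1]; norm_num
  have e5 : 4 ≤ ‖x₂ - z‖ + ‖x₁ - u - z‖ := by
    have : (x₂ - z) + (x₁ - u - z) = (2:ℝ) • (x₁ - z) := by
      rw [hu, two_smul]; abel
    calc (4:ℝ) = ‖(2:ℝ) • (x₁ - z)‖ := by rw [norm_smul, e1]; norm_num
      _ = ‖(x₂ - z) + (x₁ - u - z)‖ := by rw [this]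
      _ ≤ _ := norm_add_le _ _
  have e6 : ‖x₂ - z‖ = 2 := by linarith
  have : v x₁ + v x₂ = v x₂ - v z := by rw [hz]; abel
  rw [this, hv.dist_eq _ _ h2 hz1, e6]

/-- Lemma A. -/
theorem flat_image {v : X → Y} (hv : SphIso v) {p : X →L[ℝ] ℝ} {x₀ : X} {r : ℝ}
    (h : Flat p x₀ r) (hx : ‖x₀‖ = 1) : ∃ q : Y →L[ℝ] ℝ, Flat q (v x₀) (r / 6) := by
  have hr := h.1
  have hy0 : ‖v x₀‖ = 1 := hv.norm_eq _ hx
  have hy0' : v x₀ ≠ 0 := by
    intro h0; rw [h0, norm_zero] at hy0; norm_num at hy0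
  obtain ⟨q, hq1, hq2⟩ := exists_dual_vector ℝ (v x₀) (norm_ne_zero_iff.mpr hy0')
  have hq2' : q (v x₀) = 1 := by rw [hq2, hy0]; norm_num
  -- reduce to radius `min (r/6) (1/2)` is not needed: normalisation of nonzero vectors
  have key : ∀ y : Y, y ≠ 0 → ‖y - v x₀‖ < r / 6 →
      ∃ x, ‖x‖ = 1 ∧ ‖x - x₀‖ < r / 3 ∧ v x = ‖y‖⁻¹ • y := by
    intro y hy hyd
    have hyn : 0 < ‖y‖ := norm_pos_iff.mpr hy
    have hn : ‖‖y‖⁻¹ • y‖ = 1 := by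
      rw [norm_smul, norm_inv, norm_norm, inv_mul_cancel₀ hyn.ne']
    obtain ⟨x, hx1, hxv⟩ := hv.surj _ hn
    refine ⟨x, hx1, ?_, hxv⟩
    rw [← hv.dist_eq _ _ hx1 hx, hxv]
    have e1 : ‖‖y‖⁻¹ • y - y‖ = |1 - ‖y‖| := by
      have : ‖y‖⁻¹ • y - y = (‖y‖⁻¹ - 1) • y := by rw [sub_smul, one_smul]
      have h2 : (‖y‖⁻¹ - 1) * ‖y‖ = 1 - ‖y‖ := by
        rw [sub_mul, inv_mul_cancel₀ hyn.ne', one_mul]
      rw [this, norm_smul, Real.norm_eq_abs, ← h2, abs_mul, abs_of_pos hyn]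
    have e2 : |1 - ‖y‖| ≤ ‖y - v x₀‖ := by
      rw [← hy0, norm_sub_rev]
      exact abs_norm_sub_norm_le _ _
    calc ‖‖y‖⁻¹ • y - v x₀‖ = ‖(‖y‖⁻¹ • y - y) + (y - v x₀)‖ := by congr 1; abel
      _ ≤ ‖‖y‖⁻¹ • y - y‖ + ‖y - v x₀‖ := norm_add_le _ _
      _ < r / 3 := by rw [e1]; linarith
  have add : ∀ y y' : Y, ‖y - v x₀‖ < r / 6 → ‖y' - v x₀‖ < r / 6 →
      ‖y + y'‖ = ‖y‖ + ‖y'‖ := by
    intro y y' hy hy'
    by_cases h0 : y = 0
    · simp [h0]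
    by_cases h0' : y' = 0
    · simp [h0']
    obtain ⟨x, hx1, hxd, hxv⟩ := key y h0 hy
    obtain ⟨x', hx1', hxd', hxv'⟩ := key y' h0' hy'
    have hs := pair_sum hv h hx1 hx1' hxd hxd'
    have := norm_smul_add_smul (hv.norm_eq _ hx1) (hv.norm_eq _ hx1') hs
      (norm_nonneg y) (norm_nonneg y')
    rw [hxv, hxv', smul_smul, smul_smul, mul_inv_cancel₀ (norm_ne_zero_iff.mpr h0),
      mul_inv_cancel₀ (norm_ne_zero_iff.mpr h0'), one_smul, one_smul] at this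
    exact this
  have hqle : ∀ y, q y ≤ ‖y‖ := by
    intro y
    calc q y ≤ ‖q y‖ := Real.le_norm_self _
      _ ≤ ‖q‖ * ‖y‖ := q.le_opNorm y
      _ = ‖y‖ := by rw [hq1, one_mul]
  refine ⟨q, by positivity, fun y hy => ?_⟩
  have hy' : ‖((2:ℝ) • v x₀ - y) - v x₀‖ < r / 6 := by
    have : ((2:ℝ) • v x₀ - y) - v x₀ = -(y - v x₀) := by rw [two_smul]; abel
    rw [this, norm_neg]; exact hy
  have h1 := add y ((2:ℝ) • v x₀ - y) hy hy'
  have h2 : ‖y + ((2:ℝ) • v x₀ - y)‖ = 2 := by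
    have : y + ((2:ℝ) • v x₀ - y) = (2:ℝ) • v x₀ := by abel
    rw [this, norm_smul, hy0]; norm_num
  have h3 : q y + q ((2:ℝ) • v x₀ - y) = 2 := by
    rw [map_sub, map_smul, hq2', smul_eq_mul]; ring
  have h4 := hqle y
  have h5 := hqle ((2:ℝ) • v x₀ - y)
  linarith

end Pool.Agent.Helper194.MUP
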