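import Pool.Agent.Helper194.A9

namespace Pool.Agent.Helper194.MUP

open Filter Topology Set

variable {ι : Type*} {F : Set (Finset ι)} {X Y : Type*} [NormedAddCommGroup X] [NormedSpace ℝ X]
  [NormedAddCommGroup Y] [NormedSpace ℝ Y]

namespace Model

variable (M : Model F X)

theorem norm_e_le (hF : FamOK F) (i : ι) : ‖M.e i‖ ≤ 1 := by
  classical
  have h : M.e i = M.vec {i} (fun _ => 1) := by simp [vec]
  rw [h]
  apply M.norm_vec_le hF
  intro D _ hDi
  have : D.card ≤ 1 := by
    have := Finset.card_le_card hDi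
    simpa using this
  simp only [abs_one, Finset.sum_const, nsmul_eq_mul, mul_one]
  exact_mod_cast this

/-- vectors with prescribed signs and fixed moduli. -/
theorem exists_signed [Countable ι] [CompleteSpace X] (hF : FamOK F) :
    ∃ g : ι → ℝ, (∀ i, 0 < g i) ∧ ∀ σ : ι → ℝ, (∀ i, |σ i| = 1) →
      ∃ x : X, ∀ i, M.c i x = σ i * g i := by
  obtain ⟨f, hf⟩ := Countable.exists_injective_nat ι
  refine ⟨fun i => (1/2:ℝ)^(f i), fun i => by positivity, fun σ hσ => ?_⟩
  have hs : Summable (fun i => (1/2:ℝ)^(f i)) := summable_geometric_two.comp_injective hf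
  have hs2 : Summable (fun i => (σ i * (1/2:ℝ)^(f i)) • M.e i) := by
    apply Summable.of_norm_bounded hs
    intro i
    rw [norm_smul, norm_mul, Real.norm_eq_abs, hσ, one_mul, Real.norm_of_nonneg (by positivity)]
    have := M.norm_e_le hF i
    have h2 : 0 < (1/2:ℝ)^(f i) := by positivity
    nlinarith
  refine ⟨∑' i, (σ i * (1/2:ℝ)^(f i)) • M.e i, fun j => ?_⟩
  rw [(M.c j).map_tsum hs2, tsum_eq_single j]
  · rw [map_smul, M.c_e_same, smul_eq_mul, mul_one]
  · intro i hij
    rw [map_smul, M.c_e_ne j i hij.symm, smul_zero]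

include M in
/-- the Mazur-Ulam property, abstract form. -/
theorem main [Countable ι] [Nontrivial ι] [CompleteSpace X] (hF : FamOK F) {v : X → Y}
    (hv : SphIso v) : ∃ T : X ≃L[ℝ] Y, ∀ z, ‖z‖ = 1 → v z = T z := by
  classical
  obtain ⟨g, hg, hG⟩ := M.exists_signed hF
  obtain ⟨x₀, hx₀⟩ := hG (fun _ => 1) (fun _ => abs_one)
  have full₀ : ∀ i, M.c i x₀ ≠ 0 := by
    intro i; rw [hx₀, one_mul]; exact (hg i).ne'
  obtain ⟨A, hAF, hA⟩ := M.attained x₀
  obtain ⟨hAne, hAmax⟩ := M.norming_max full₀ hA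
  obtain ⟨T, hT⟩ := M.exists_TA hF hv hAF hAne hAmax
  have claim : ∀ x : X, (∀ i, M.c i x ≠ 0) → Rep (homExt v) x (T : X →L[ℝ] Y) := by
    intro x hx
    obtain ⟨y, hy⟩ := hG (fun i => if 0 < M.c i x then 1 else -1) (by
      intro i; by_cases h : 0 < M.c i x <;> simp [h])
    have habs : ∀ i, |M.c i y| = |M.c i x₀| := by
      intro i
      rw [hy, hx₀, abs_mul, one_mul]
      by_cases h : 0 < M.c i x <;> simp [h]
    have fully : ∀ i, M.c i y ≠ 0 := by
      intro i
      rw [← abs_pos, habs, abs_pos]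
      exact full₀ i
    have hAy : ∑ i ∈ A, |M.c i y| = ‖y‖ := by
      rw [Finset.sum_congr rfl (fun i _ => habs i), hA]
      exact (M.norm_eq_of_abs habs).symm
    have ry := M.rep_full hF hv fully hAy hT
    have ex : ∀ z : X, (∀ i, M.c i z ≠ 0) → ∃ S : X →L[ℝ] Y, Rep (homExt v) z S := by
      intro z hz
      obtain ⟨B, hBF, hB⟩ := M.attained z
      obtain ⟨hBne, hBmax⟩ := M.norming_max hz hB
      obtain ⟨S, hS⟩ := M.exists_TA hF hv hBF hBne hBmax
      exact ⟨_, M.rep_full hF hv hz hB hS⟩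
    obtain ⟨S, hS⟩ := ex x hx
    have hST : S = (T : X →L[ℝ] Y) := by
      refine rep_segment (U := homExt v) ?_ hS ry
      intro t ht
      apply ex
      intro i
      rw [AffineMap.lineMap_apply_module, map_add, map_smul, map_smul, hy, smul_eq_mul,
        smul_eq_mul]
      have h1 : 0 ≤ 1 - t := by linarith [ht.2]
      have h2 := ht.1
      have h3 := hg i
      by_cases h : 0 < M.c i x
      · simp only [h, if_true, one_mul]
        rcases h1.eq_or_lt with h4 | h4
        · have : t = 1 := by linarith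
          rw [this]; simp [h3.ne']
        · have : 0 < (1 - t) * M.c i x := mul_pos h4 h
          have : 0 ≤ t * g i := mul_nonneg h2 h3.le
          linarith
      · have h' : M.c i x < 0 := lt_of_le_of_ne (not_lt.mp h) (hx i)
        simp only [h, if_false]
        rcases h1.eq_or_lt with h4 | h4
        · have : t = 1 := by linarith
          rw [this]; simp [h3.ne']
        · have : (1 - t) * M.c i x < 0 := mul_neg_of_pos_of_neg h4 h'
          have : 0 ≤ t * g i := mul_nonneg h2 h3.le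
          intro h5
          linarith
    rw [← hST]; exact hS
  refine ⟨T, fun z hz => ?_⟩
  -- approximate `z` by full vectors
  set S : Set ℝ := {t | ∀ i, M.c i (z + t • x₀) ≠ 0} with hSdef
  have hSc : Sᶜ.Countable := by
    have : Sᶜ ⊆ ⋃ i, {t : ℝ | t = -(M.c i z) / g i} := by
      intro t ht
      rw [mem_compl_iff, hSdef] at ht
      have ht' : ¬ ∀ i, M.c i (z + t • x₀) ≠ 0 := ht
      push Not at ht'
      obtain ⟨i, hi⟩ := ht'
      rw [mem_iUnion]
      refine ⟨i, ?_⟩
      rw [map_add, map_smul, smul_eq_mul, hx₀, one_mul] at hi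
      change t = _
      rw [eq_div_iff (hg i).ne']
      linarith
    refine (countable_iUnion (fun i => ?_)).mono this
    exact (Set.countable_singleton (-(M.c i z) / g i)).mono (fun t ht => ht)
  have hdense : Dense S := by
    have := hSc.dense_compl ℝ
    rwa [compl_compl] at this
  have hne : (𝓝[S] (0:ℝ)).NeBot := mem_closure_iff_nhdsWithin_neBot.mp (hdense 0)
  have hz0 : z ≠ 0 := by rintro rfl; simp at hz
  have c1 : ContinuousAt (fun t : ℝ => z + t • x₀) 0 := by fun_prop
  have e1 : z + (0:ℝ) • x₀ = z := by rw [zero_smul, add_zero]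
  have c2 : Tendsto (fun t : ℝ => ‖z + t • x₀‖⁻¹ • (z + t • x₀)) (𝓝[S] 0) (𝓝 z) := by
    have c3 : ContinuousAt (fun t : ℝ => ‖z + t • x₀‖⁻¹ • (z + t • x₀)) 0 := by
      apply ContinuousAt.smul
      · apply ContinuousAt.inv₀ c1.norm
        rw [e1, hz]; norm_num
      · exact c1
    have c4 : ‖z + (0:ℝ) • x₀‖⁻¹ • (z + (0:ℝ) • x₀) = z := by rw [e1, hz]; simp
    have := c3.tendsto
    rw [c4] at this
    exact this.mono_left nhdsWithin_le_nhds
  have hnz : ∀ᶠ t in 𝓝[S] (0:ℝ), z + t • x₀ ≠ 0 := by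
    apply nhdsWithin_le_nhds
    exact c1.eventually_ne (by rw [e1]; exact hz0)
  have hunit : ∀ᶠ t in 𝓝[S] (0:ℝ), ‖‖z + t • x₀‖⁻¹ • (z + t • x₀)‖ = 1 := by
    filter_upwards [hnz] with t ht
    rw [norm_smul, norm_inv, norm_norm, inv_mul_cancel₀ (norm_ne_zero_iff.mpr ht)]
  have lim1 : Tendsto (fun t : ℝ => v (‖z + t • x₀‖⁻¹ • (z + t • x₀))) (𝓝[S] 0) (𝓝 (v z)) := by
    rw [tendsto_iff_norm_sub_tendsto_zero]
    have h1 := tendsto_iff_norm_sub_tendsto_zero.mp c2
    refine h1.congr' ?_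
    filter_upwards [hunit] with t ht
    exact (hv.dist_eq _ _ ht hz).symm
  have lim2 : Tendsto (fun t : ℝ => v (‖z + t • x₀‖⁻¹ • (z + t • x₀))) (𝓝[S] 0) (𝓝 (T z)) := by
    have h1 : Tendsto (fun t : ℝ => T (‖z + t • x₀‖⁻¹ • (z + t • x₀))) (𝓝[S] 0) (𝓝 (T z)) :=
      (T.continuous.tendsto z).comp c2
    refine h1.congr' ?_
    filter_upwards [hnz, self_mem_nhdsWithin] with t ht htS
    have h2 := (claim (z + t • x₀) htS).self
    unfold homExt at h2
    have hn : ‖z + t • x₀‖ ≠ 0 := norm_ne_zero_iff.mpr ht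
    rw [map_smul]
    have h3 : (T : X →L[ℝ] Y) (z + t • x₀) = T (z + t • x₀) := rfl
    rw [← h3, ← h2, smul_smul, inv_mul_cancel₀ hn, one_smul]
  exact tendsto_nhds_unique lim1 lim2

end Model

end Pool.Agent.Helper194.MUP
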