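import Pool.Agent.Helper194.A10

namespace Pool.Agent.Helper194.MUP

open Filter Topology Set UniformSpace

/-- the indicator of a finite set. -/
def ind {ι : Type*} [DecidableEq ι] (A : Finset ι) : ι → Bool := fun n => decide (n ∈ A)

section family

variable {ι : Type*} [DecidableEq ι] {F : Set (Finset ι)}

theorem ind_apply_eq_true {A : Finset ι} {n : ι} : ind A n = true ↔ n ∈ A := by
  simp [ind]

theorem ind_injective {A B : Finset ι} (h : ind A = ind B) : A = B := by
  ext n
  rw [← ind_apply_eq_true, ← ind_apply_eq_true, h]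

theorem isOpen_superset (B : Finset ι) : IsOpen {c : ι → Bool | ∀ i ∈ B, c i = true} := by
  have : {c : ι → Bool | ∀ i ∈ B, c i = true} = ⋂ i ∈ B, {c : ι → Bool | c i = true} := by
    ext c; simp
  rw [this]
  apply isOpen_biInter_finset
  intro i _
  have h : {c : ι → Bool | c i = true} = (fun c : ι → Bool => c i) ⁻¹' {true} := by ext; simp
  rw [h]
  exact (isOpen_discrete _).preimage (continuous_apply i)

theorem isClosed_superset (B : Finset ι) : IsClosed {c : ι → Bool | ∀ i ∈ B, c i = true} := by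
  have : {c : ι → Bool | ∀ i ∈ B, c i = true} = ⋂ i ∈ B, {c : ι → Bool | c i = true} := by
    ext c; simp
  rw [this]
  apply isClosed_biInter
  intro i _
  have h : {c : ι → Bool | c i = true} = (fun c : ι → Bool => c i) ⁻¹' {true} := by ext; simp
  rw [h]
  exact (isClosed_discrete _).preimage (continuous_apply i)

/-- compactness gives maximal elements. -/
theorem exists_max_of_compact [Countable ι] (hK : IsCompact (ind '' F)) :
    ∀ A ∈ F, ∃ B ∈ F, A ⊆ B ∧ ∀ C ∈ F, B ⊆ C → C = B := by
  intro A hA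
  obtain ⟨f, hf⟩ := Countable.exists_injective_nat ι
  set g : ι → ℝ := fun i => (1/2:ℝ)^(f i) with hg
  have gpos : ∀ i, 0 < g i := fun i => by positivity
  have hs : Summable g := summable_geometric_two.comp_injective hf
  set φ : (ι → Bool) → ℝ := fun c => ∑' i, (if c i = true then g i else 0) with hφ
  have hφc : Continuous φ := by
    apply continuous_tsum _ hs
    · intro i c
      by_cases h : c i = true
      · simp [h, abs_of_pos (gpos i)]
      · simp [h, (gpos i).le]
    · intro i
      have : (fun c : ι → Bool => if c i = true then g i else 0) =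
          (fun b : Bool => if b = true then g i else 0) ∘ (fun c : ι → Bool => c i) := rfl
      rw [this]
      exact continuous_of_discreteTopology.comp (continuous_apply i)
  have hφA : ∀ B : Finset ι, φ (ind B) = ∑ i ∈ B, g i := by
    intro B
    have h1 : ∀ i, i ∉ B → (if ind B i = true then g i else 0) = 0 := by
      intro i hi; rw [if_neg]; rw [ind_apply_eq_true]; exact hi
    change ∑' i, (if ind B i = true then g i else 0) = _
    rw [tsum_eq_sum (s := B) h1]
    apply Finset.sum_congr rfl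
    intro i hi
    rw [if_pos (ind_apply_eq_true.mpr hi)]
  have hKA : IsCompact (ind '' F ∩ {c | ∀ i ∈ A, c i = true}) := hK.inter_right (isClosed_superset A)
  obtain ⟨c, ⟨⟨B, hB, rfl⟩, hAB⟩, hmax⟩ := hKA.exists_isMaxOn
    ⟨ind A, ⟨A, hA, rfl⟩, fun i hi => ind_apply_eq_true.mpr hi⟩ hφc.continuousOn
  have hAB' : A ⊆ B := fun i hi => ind_apply_eq_true.mp (hAB i hi)
  refine ⟨B, hB, hAB', fun C hC hBC => ?_⟩
  by_contra hne
  obtain ⟨k, hkC, hkB⟩ : ∃ k ∈ C, k ∉ B := by
    by_contra hcon
    push Not at hcon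
    exact hne (Finset.Subset.antisymm hcon hBC)
  have h1 : φ (ind C) ≤ φ (ind B) :=
    hmax ⟨⟨C, hC, rfl⟩, fun i hi => ind_apply_eq_true.mpr (hBC (hAB' hi))⟩
  rw [hφA, hφA] at h1
  have h2 : ∑ i ∈ insert k B, g i ≤ ∑ i ∈ C, g i := by
    apply Finset.sum_le_sum_of_subset_of_nonneg
    · intro y hy
      rw [Finset.mem_insert] at hy
      rcases hy with rfl | hy
      · exact hkC
      · exact hBC hy
    · intro i _ _; exact (gpos i).le
  rw [Finset.sum_insert hkB] at h2
  have := gpos k
  linarith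

end family

section completion

variable {ι : Type*} [DecidableEq ι] [Countable ι] [Nonempty ι] {F : Set (Finset ι)}
  {E : Type*} [SeminormedAddCommGroup E] [NormedSpace ℝ E]

/-- data describing `c_00` with the norm given by the family. -/
structure Pre (F : Set (Finset ι)) (E : Type*) [SeminormedAddCommGroup E] [NormedSpace ℝ E] where
  L : E ≃ₗ[ℝ] (ι →₀ ℝ)
  her : ∀ A ∈ F, ∀ B, B ⊆ A → B ∈ F
  single : ∀ i, {i} ∈ F
  cpt : IsCompact (ind '' F)
  norm_eq : ∀ x : E, ‖x‖ = sSup {r | ∃ A ∈ F, r = ∑ j ∈ A, |L x j|}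

namespace Pre

variable (P : Pre F E)

include P in
theorem famOK : FamOK F := ⟨P.her, P.single, exists_max_of_compact P.cpt⟩

theorem bdd (x : E) : BddAbove {r | ∃ A ∈ F, r = ∑ j ∈ A, |P.L x j|} := by
  refine ⟨∑ j ∈ (P.L x).support, |P.L x j|, ?_⟩
  rintro _ ⟨A, _, rfl⟩
  have h1 : ∑ j ∈ A, |P.L x j| = ∑ j ∈ A ∩ (P.L x).support, |P.L x j| := by
    symm
    apply Finset.sum_subset Finset.inter_subset_left
    intro j hj hj'
    have : j ∉ (P.L x).support := fun h => hj' (Finset.mem_inter.mpr ⟨hj, h⟩)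
    rw [Finsupp.notMem_support_iff.mp this, abs_zero]
  rw [h1]
  apply Finset.sum_le_sum_of_subset_of_nonneg Finset.inter_subset_right
  intro i _ _; exact abs_nonneg _

theorem le_norm0 {A : Finset ι} (hA : A ∈ F) (x : E) : ∑ j ∈ A, |P.L x j| ≤ ‖x‖ := by
  rw [P.norm_eq]
  exact le_csSup (P.bdd x) ⟨A, hA, rfl⟩

/-- coordinate functionals on the incomplete space. -/
noncomputable def c0 (i : ι) : E →L[ℝ] ℝ :=
  LinearMap.mkContinuous ((Finsupp.lapply i) ∘ₗ (P.L : E →ₗ[ℝ] (ι →₀ ℝ))) 1 (by
    intro x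
    have := P.le_norm0 (P.single i) x
    rw [Finset.sum_singleton] at this
    rw [one_mul]
    exact this)

theorem c0_apply (i : ι) (x : E) : P.c0 i x = P.L x i := rfl

/-- coordinate functionals on the completion. -/
noncomputable def c (i : ι) : Completion E →L[ℝ] ℝ := (P.c0 i).fromCompletion

theorem c_coe (i : ι) (x : E) : P.c i (x : Completion E) = P.L x i := by
  unfold c
  rw [ContinuousLinearMap.fromCompletion_apply_coe, c0_apply]

/-- unit vectors in the completion. -/
noncomputable def e (i : ι) : Completion E := ((P.L.symm (Finsupp.single i 1) : E) : Completion E)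

theorem c_e_same (i : ι) : P.c i (P.e i) = 1 := by
  unfold e
  rw [c_coe]; simp

theorem c_e_ne (i j : ι) (h : i ≠ j) : P.c i (P.e j) = 0 := by
  unfold e
  rw [c_coe]; simp [h.symm]

theorem dense_span (x : Completion E) :
    x ∈ closure (Submodule.span ℝ (Set.range P.e) : Set (Completion E)) := by
  have h1 : Set.range ((↑) : E → Completion E) ⊆ (Submodule.span ℝ (Set.range P.e)) := by
    rintro _ ⟨y, rfl⟩
    obtain ⟨f, rfl⟩ := P.L.symm.surjective y
    induction f using Finsupp.induction_linear with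
    | zero =>
      rw [map_zero, Completion.coe_zero]; exact Submodule.zero_mem _
    | add f g hf hg =>
      rw [map_add, Completion.coe_add]; exact Submodule.add_mem _ hf hg
    | single i a =>
      have h2 : Finsupp.single i a = a • (Finsupp.single i (1:ℝ)) := by simp
      rw [h2, map_smul, Completion.coe_smul]
      exact Submodule.smul_mem _ _ (Submodule.subset_span ⟨i, rfl⟩)
  exact closure_mono h1 (Completion.denseRange_coe x)

theorem le_norm {A : Finset ι} (hA : A ∈ F) (x : Completion E) :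
    ∑ i ∈ A, |P.c i x| ≤ ‖x‖ := by
  induction x using Completion.induction_on with
  | hp =>
    apply isClosed_le
    · exact continuous_finsetSum _ (fun i _ => (P.c i).continuous.abs)
    · exact continuous_norm
  | ih x =>
    rw [Completion.norm_coe, Finset.sum_congr rfl (fun i _ => by rw [P.c_coe])]
    exact P.le_norm0 hA x

omit [DecidableEq ι] [Countable ι] [Nonempty ι] [NormedSpace ℝ E] in
theorem approx (x : Completion E) {ε : ℝ} (hε : 0 < ε) : ∃ y : E, ‖x - y‖ < ε := by
  obtain ⟨y, hy⟩ := (Completion.denseRange_coe (α := E)).exists_dist_lt x hε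
  exact ⟨y, by rwa [← dist_eq_norm]⟩

theorem sum_diff {A : Finset ι} (hA : A ∈ F) (x y : Completion E) :
    |(∑ i ∈ A, |P.c i x|) - (∑ i ∈ A, |P.c i y|)| ≤ ‖x - y‖ := by
  have h1 := P.le_norm hA (x - y)
  have h2 : ∀ x y : Completion E, ∑ i ∈ A, |P.c i x| ≤ ∑ i ∈ A, |P.c i y| +
      ∑ i ∈ A, |P.c i (x - y)| := by
    intro x y
    rw [← Finset.sum_add_distrib]
    apply Finset.sum_le_sum
    intro i _
    rw [map_sub]
    have := abs_sub_abs_le_abs_sub (P.c i x) (P.c i y)
    linarith
  have h3 := P.le_norm hA (y - x)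
  rw [norm_sub_rev] at h3
  rw [abs_le]
  constructor
  · have := h2 y x; linarith
  · have := h2 x y; linarith

open Classical in
/-- decoding of indicators. -/
noncomputable def dec (c : ι → Bool) : Finset ι :=
  if h : {n | c n = true}.Finite then h.toFinset else ∅

omit [Countable ι] [Nonempty ι] in
theorem dec_ind (A : Finset ι) : dec (ind A) = A := by
  unfold dec
  have h : {n | ind A n = true}.Finite := by
    apply A.finite_toSet.subset
    intro n hn
    exact ind_apply_eq_true.mp hn
  rw [dif_pos h]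
  ext n
  rw [Set.Finite.mem_toFinset]
  exact ind_apply_eq_true

/-- the norming function on the compact set of indicators. -/
noncomputable def phi (x : Completion E) (c : ι → Bool) : ℝ := ∑ i ∈ dec c, |P.c i x|

theorem phi_ind (x : Completion E) (A : Finset ι) : P.phi x (ind A) = ∑ i ∈ A, |P.c i x| := by
  unfold phi; rw [dec_ind]

theorem phi_cont (x : Completion E) : ContinuousOn (P.phi x) (ind '' F) := by
  apply continuousOn_of_uniform_approx_of_continuousOn
  intro u hu
  obtain ⟨ε, hε, hu⟩ := Metric.mem_uniformity_dist.mp hu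
  obtain ⟨y, hy⟩ := approx x hε
  refine ⟨fun c => ∑ i ∈ (P.L y).support, (if c i = true then |P.L y i| else 0), ?_, ?_⟩
  · apply Continuous.continuousOn
    apply continuous_finsetSum
    intro i _
    have : (fun c : ι → Bool => if c i = true then |P.L y i| else 0) =
        (fun b : Bool => if b = true then |P.L y i| else 0) ∘ (fun c : ι → Bool => c i) := rfl
    rw [this]
    exact continuous_of_discreteTopology.comp (continuous_apply i)
  · rintro _ ⟨A, hA, rfl⟩
    apply hu
    have h1 : ∑ i ∈ (P.L y).support, (if ind A i = true then |P.L y i| else 0) =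
        ∑ i ∈ A, |P.c i (y : Completion E)| := by
      have h2 : ∀ i, (if ind A i = true then |P.L y i| else 0) =
          if i ∈ A then |P.L y i| else 0 := by
        intro i
        by_cases h : i ∈ A
        · rw [if_pos h, if_pos (ind_apply_eq_true.mpr h)]
        · rw [if_neg h, if_neg (fun h' => h (ind_apply_eq_true.mp h'))]
      rw [Finset.sum_congr rfl (fun i _ => h2 i), Finset.sum_ite_mem]
      have h3 : ∑ i ∈ A, |P.c i (y : Completion E)| = ∑ i ∈ A, |P.L y i| :=
        Finset.sum_congr rfl (fun i _ => by rw [P.c_coe])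
      rw [h3]
      apply Finset.sum_subset Finset.inter_subset_right
      intro i hi hi'
      have : i ∉ (P.L y).support := fun h => hi' (Finset.mem_inter.mpr ⟨h, hi⟩)
      rw [Finsupp.notMem_support_iff.mp this, abs_zero]
    change dist (P.phi x (ind A)) (∑ i ∈ (P.L y).support, (if ind A i = true then |P.L y i| else 0)) < ε
    rw [h1, P.phi_ind, Real.dist_eq]
    exact lt_of_le_of_lt (P.sum_diff hA x y) hy

include P in
theorem F_nonempty : (ind '' F).Nonempty := by
  obtain ⟨i⟩ := ‹Nonempty ι›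
  exact ⟨ind {i}, {i}, P.single i, rfl⟩

theorem attained (x : Completion E) : ∃ A ∈ F, ∑ i ∈ A, |P.c i x| = ‖x‖ := by
  obtain ⟨c, ⟨A, hA, rfl⟩, hmax⟩ := P.cpt.exists_isMaxOn P.F_nonempty (P.phi_cont x)
  refine ⟨A, hA, le_antisymm (P.le_norm hA x) ?_⟩
  apply le_of_forall_pos_lt_add
  intro ε hε
  obtain ⟨y, hy⟩ := approx x (ε := ε / 4) (by positivity)
  -- pick a nearly norming set for y
  have hne : {r | ∃ A ∈ F, r = ∑ j ∈ A, |P.L y j|}.Nonempty := ⟨_, A, hA, rfl⟩
  have h1 : ‖y‖ - ε / 4 < sSup {r | ∃ A ∈ F, r = ∑ j ∈ A, |P.L y j|} := by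
    rw [← P.norm_eq]; linarith
  obtain ⟨_, ⟨B, hB, rfl⟩, hBlt⟩ := exists_lt_of_lt_csSup hne h1
  have h2 : ∑ i ∈ B, |P.c i (y : Completion E)| = ∑ j ∈ B, |P.L y j| :=
    Finset.sum_congr rfl (fun i _ => by rw [P.c_coe])
  have h3 := P.sum_diff hB x y
  rw [abs_le] at h3
  have h4 : P.phi x (ind B) ≤ P.phi x (ind A) := hmax ⟨B, hB, rfl⟩
  rw [P.phi_ind, P.phi_ind] at h4
  have h5 : ‖x‖ ≤ ‖y‖ + ‖x - y‖ := by
    have := norm_add_le (y : Completion E) (x - y)
    rw [Completion.norm_coe] at this
    have e : (y : Completion E) + (x - y) = x := by abel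
    rwa [e] at this
  linarith [h3.1]

theorem locfin (x : Completion E) (hx : ∀ i, P.c i x ≠ 0) : ∃ δ > 0, ∀ y, ‖y - x‖ < δ →
    ∀ B ∈ F, ∑ i ∈ B, |P.c i y| = ‖y‖ → ∑ i ∈ B, |P.c i x| = ‖x‖ := by
  -- norming sets are maximal
  have hmaxl : ∀ B ∈ F, ∑ i ∈ B, |P.c i x| = ‖x‖ → ∀ C ∈ F, B ⊆ C → C = B := by
    intro B _ hBe C hC hBC
    by_contra hne
    obtain ⟨k, hkC, hkB⟩ : ∃ k ∈ C, k ∉ B := by
      by_contra hcon
      push Not at hcon
      exact hne (Finset.Subset.antisymm hcon hBC)
    have h1 := P.le_norm hC x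
    have h2 : ∑ i ∈ insert k B, |P.c i x| ≤ ∑ i ∈ C, |P.c i x| := by
      apply Finset.sum_le_sum_of_subset_of_nonneg
      · intro y hy
        rw [Finset.mem_insert] at hy
        rcases hy with rfl | hy
        · exact hkC
        · exact hBC hy
      · intro _ _ _; exact abs_nonneg _
    rw [Finset.sum_insert hkB, hBe] at h2
    have h3 : 0 < |P.c k x| := abs_pos.mpr (hx k)
    linarith
  set O : Set (ι → Bool) := ⋃ B ∈ {B | B ∈ F ∧ ∑ i ∈ B, |P.c i x| = ‖x‖},
    {c : ι → Bool | ∀ i ∈ B, c i = true} with hO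
  have hOo : IsOpen O := isOpen_biUnion (fun B _ => isOpen_superset B)
  have hK' : IsCompact (ind '' F ∩ Oᶜ) := P.cpt.inter_right hOo.isClosed_compl
  have hmem : ∀ B ∈ F, (ind B ∉ O ↔ ∑ i ∈ B, |P.c i x| ≠ ‖x‖) := by
    intro B hB
    rw [not_iff_not]
    constructor
    · intro h
      simp only [hO, mem_iUnion] at h
      obtain ⟨A, ⟨hA, hAe⟩, hAB⟩ := h
      have hAB' : A ⊆ B := fun i hi => ind_apply_eq_true.mp (hAB i hi)
      rw [hmaxl A hA hAe B hB hAB']
      exact hAe
    · intro h
      simp only [hO, mem_iUnion]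
      exact ⟨B, ⟨hB, h⟩, fun i hi => ind_apply_eq_true.mpr hi⟩
  by_cases hemp : (ind '' F ∩ Oᶜ).Nonempty
  · obtain ⟨c, ⟨⟨A, hA, rfl⟩, hAO⟩, hmax⟩ := hK'.exists_isMaxOn hemp
      ((P.phi_cont x).mono Set.inter_subset_left)
    have h1 : ∑ i ∈ A, |P.c i x| < ‖x‖ := lt_of_le_of_ne (P.le_norm hA x) ((hmem A hA).mp hAO)
    refine ⟨(‖x‖ - ∑ i ∈ A, |P.c i x|) / 2, by linarith, fun y hy B hB hBy => ?_⟩
    by_contra hne
    have h2 : P.phi x (ind B) ≤ P.phi x (ind A) := hmax ⟨⟨B, hB, rfl⟩, (hmem B hB).mpr hne⟩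
    rw [P.phi_ind, P.phi_ind] at h2
    have h3 := P.sum_diff hB x y
    rw [abs_le, norm_sub_rev] at h3
    have h4 : ‖x‖ ≤ ‖y‖ + ‖y - x‖ := by
      have := norm_sub_norm_le x y
      rw [norm_sub_rev] at this
      linarith
    linarith [h3.1, h3.2]
  · refine ⟨1, one_pos, fun y _ B hB _ => ?_⟩
    by_contra hne
    exact hemp ⟨ind B, ⟨B, hB, rfl⟩, (hmem B hB).mpr hne⟩

/-- the completion is a model. -/
noncomputable def model : Model F (Completion E) where
  e := P.e
  c := P.c
  c_e_same := P.c_e_same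
  c_e_ne := P.c_e_ne
  dense := P.dense_span
  le_norm := fun _ hA x => P.le_norm hA x
  attained := P.attained
  locfin := P.locfin

end Pre

end completion

end Pool.Agent.Helper194.MUP
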