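import Pool.Agent.Helper194.A1

namespace Pool.Agent.Helper194.MUP

open Filter Topology Set

variable {X Y : Type*} [NormedAddCommGroup X] [NormedSpace ℝ X]
  [NormedAddCommGroup Y] [NormedSpace ℝ Y]

/-- Vaisala's argument on a metric space with a point reflection. -/
theorem vaisala {N : Type*} [MetricSpace N] (R : N ≃ᵢ N) (m a b : N)
    (hR : ∀ x, dist (R x) x = 2 * dist x m) (hRR : ∀ x, R (R x) = x) (hab : R a = b)
    (g : N ≃ᵢ N) (ga : g a = a) (gb : g b = b) : g m = m := by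
  have hRm : R m = m := by
    have := hR m
    rw [dist_self, mul_zero] at this
    exact dist_eq_zero.mp this
  have hba : R b = a := by rw [← hab, hRR]
  set s := {e : N ≃ᵢ N | e a = a ∧ e b = b} with hs
  have : Nonempty s := ⟨⟨IsometryEquiv.refl N, rfl, rfl⟩⟩
  have h_bdd : BddAbove (range fun e : s => dist ((e : N ≃ᵢ N) m) m) := by
    refine ⟨dist a m + dist a m, ?_⟩
    rintro _ ⟨⟨e, hx, hy⟩, rfl⟩
    calc dist (e m) m ≤ dist (e m) a + dist a m := dist_triangle _ _ _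
      _ = dist (e m) (e a) + dist a m := by rw [hx]
      _ = dist m a + dist a m := by rw [e.dist_eq]
      _ = dist a m + dist a m := by rw [dist_comm]
      _ ≤ _ := le_rfl
  have key : ∀ e : s, ∃ f : s, dist ((f : N ≃ᵢ N) m) m = 2 * dist ((e : N ≃ᵢ N) m) m := by
    rintro ⟨e, hx, hy⟩
    refine ⟨⟨((e.trans R).trans e.symm).trans R, ?_, ?_⟩, ?_⟩
    · change R (e.symm (R (e a))) = a
      rw [hx, hab, ← hba]
      congr 1
      rw [IsometryEquiv.symm_apply_eq, hy]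
    · change R (e.symm (R (e b))) = b
      rw [hy, hba, ← hab]
      congr 1
      rw [IsometryEquiv.symm_apply_eq, hx]
    · change dist (R (e.symm (R (e m)))) m = 2 * dist (e m) m
      rw [← hR (e m)]
      nth_rewrite 2 [← hRm]
      rw [R.dist_eq]
      nth_rewrite 2 [← e.symm_apply_apply m]
      rw [e.symm.dist_eq]
  set c := ⨆ e : s, dist ((e : N ≃ᵢ N) m) m with hc
  have h2 : ∀ e : s, 2 * dist ((e : N ≃ᵢ N) m) m ≤ c := by
    intro e
    obtain ⟨f, hf⟩ := key e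
    rw [← hf]
    exact le_ciSup h_bdd f
  have h3 : c ≤ c / 2 := by
    apply ciSup_le
    intro e
    have := h2 e
    linarith
  have h4 : c ≤ 0 := by linarith
  have h5 : dist (g m) m ≤ 0 := (le_ciSup h_bdd (⟨g, ga, gb⟩ : s)).trans h4
  exact dist_le_zero.mp h5

/-- the lens shaped part of the unit sphere around two points. -/
abbrev Lens (a b : X) : Type _ :=
  {x : X // ‖x‖ = 1 ∧ ‖x - a‖ ≤ ‖a - b‖ ∧ ‖x - b‖ ≤ ‖a - b‖}

theorem Lens.dist_def {a b : X} (x y : Lens a b) : dist x y = ‖x.1 - y.1‖ := by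
  rw [Subtype.dist_eq, dist_eq_norm]

/-- the reflection of a lens contained in a flat part. -/
noncomputable def lensRefl {p : X →L[ℝ] ℝ} {x₀ : X} {r : ℝ} (h : Flat p x₀ r) {a b : X}
    (ha : ‖a‖ = 1) (hb : ‖b‖ = 1) (da : ‖a - x₀‖ < r / 4) (db : ‖b - x₀‖ < r / 4) :
    Lens a b ≃ᵢ Lens a b := by
  have hr := h.1
  have pa : p a = 1 := by rw [← h.2 a (by linarith), ha]
  have pb : p b = 1 := by rw [← h.2 b (by linarith), hb]
  have hab : ‖a - b‖ < r / 2 := by
    have : a - b = (a - x₀) - (b - x₀) := by abel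
    rw [this]
    have := norm_sub_le (a - x₀) (b - x₀)
    linarith
  have main : ∀ x : X, (‖x‖ = 1 ∧ ‖x - a‖ ≤ ‖a - b‖ ∧ ‖x - b‖ ≤ ‖a - b‖) →
      (‖a + b - x‖ = 1 ∧ ‖a + b - x - a‖ ≤ ‖a - b‖ ∧ ‖a + b - x - b‖ ≤ ‖a - b‖) := by
    rintro x ⟨hx, hxa, hxb⟩
    have e1 : a + b - x - a = -(x - b) := by abel
    have e2 : a + b - x - b = -(x - a) := by abel
    have hxd : ‖x - x₀‖ < r := by
      have : x - x₀ = (x - a) + (a - x₀) := by abel
      rw [this]
      have := norm_add_le (x - a) (a - x₀)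
      linarith
    have px : p x = 1 := by rw [← h.2 x hxd, hx]
    have hyd : ‖(a + b - x) - x₀‖ < r := by
      have : (a + b - x) - x₀ = (a + b - x - a) + (a - x₀) := by abel
      rw [this]
      have := norm_add_le (a + b - x - a) (a - x₀)
      rw [e1, norm_neg] at this
      rw [e1]
      linarith
    refine ⟨?_, ?_, ?_⟩
    · rw [h.2 _ hyd, map_sub, map_add, pa, pb, px]; ring
    · rw [e1, norm_neg]; exact hxb
    · rw [e2, norm_neg]; exact hxa
  refine
    { toFun := fun x => ⟨a + b - x.1, main x.1 x.2⟩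
      invFun := fun x => ⟨a + b - x.1, main x.1 x.2⟩
      left_inv := ?_
      right_inv := ?_
      isometry_toFun := ?_ }
  · intro x; apply Subtype.ext; change a + b - (a + b - x.1) = x.1; abel
  · intro x; apply Subtype.ext; change a + b - (a + b - x.1) = x.1; abel
  · apply Isometry.of_dist_eq
    intro x y
    rw [Lens.dist_def, Lens.dist_def]
    have e : (a + b - x.1) - (a + b - y.1) = -(x.1 - y.1) := by abel
    change ‖(a + b - x.1) - (a + b - y.1)‖ = ‖x.1 - y.1‖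
    rw [e, norm_neg]

theorem lensRefl_apply {p : X →L[ℝ] ℝ} {x₀ : X} {r : ℝ} (h : Flat p x₀ r) {a b : X}
    (ha : ‖a‖ = 1) (hb : ‖b‖ = 1) (da : ‖a - x₀‖ < r / 4) (db : ‖b - x₀‖ < r / 4)
    (x : Lens a b) : (lensRefl h ha hb da db x).1 = a + b - x.1 := rfl

/-- `v` maps a lens onto the corresponding lens. -/
noncomputable def lensMap {v : X → Y} (hv : SphIso v) {a b : X} (ha : ‖a‖ = 1) (hb : ‖b‖ = 1) :
    Lens a b ≃ᵢ Lens (v a) (v b) := by
  have main : ∀ x : X, (‖x‖ = 1 ∧ ‖x - a‖ ≤ ‖a - b‖ ∧ ‖x - b‖ ≤ ‖a - b‖) →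
      (‖v x‖ = 1 ∧ ‖v x - v a‖ ≤ ‖v a - v b‖ ∧ ‖v x - v b‖ ≤ ‖v a - v b‖) := by
    rintro x ⟨h1, h2, h3⟩
    refine ⟨hv.norm_eq _ h1, ?_, ?_⟩
    · rw [hv.dist_eq _ _ h1 ha, hv.dist_eq _ _ ha hb]; exact h2
    · rw [hv.dist_eq _ _ h1 hb, hv.dist_eq _ _ ha hb]; exact h3
  refine IsometryEquiv.mk (Equiv.ofBijective (fun x => ⟨v x.1, main x.1 x.2⟩) ⟨?_, ?_⟩) ?_
  · intro x y hxy
    have h : v x.1 = v y.1 := congrArg Subtype.val hxy
    apply Subtype.ext
    have := hv.dist_eq _ _ x.2.1 y.2.1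
    rw [h, sub_self, norm_zero] at this
    exact sub_eq_zero.mp (norm_eq_zero.mp this.symm)
  · rintro ⟨y, h1, h2, h3⟩
    obtain ⟨x, hx, rfl⟩ := hv.surj y h1
    refine ⟨⟨x, hx, ?_, ?_⟩, rfl⟩
    · rw [hv.dist_eq _ _ hx ha, hv.dist_eq _ _ ha hb] at h2; exact h2
    · rw [hv.dist_eq _ _ hx hb, hv.dist_eq _ _ ha hb] at h3; exact h3
  · apply Isometry.of_dist_eq
    intro x y
    rw [Lens.dist_def, Lens.dist_def]
    change ‖v x.1 - v y.1‖ = _
    exact hv.dist_eq _ _ x.2.1 y.2.1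

theorem lensMap_apply {v : X → Y} (hv : SphIso v) {a b : X} (ha : ‖a‖ = 1) (hb : ‖b‖ = 1)
    (x : Lens a b) : (lensMap hv ha hb x).1 = v x.1 := rfl

theorem mid_mem {f : X →L[ℝ] ℝ} {z₀ c d : X} {r : ℝ} (hf : Flat f z₀ r) (hc : f c = 1)
    (hd : f d = 1) (dc : ‖c - z₀‖ < r / 4) (dd : ‖d - z₀‖ < r / 4) :
    (‖(1/2 : ℝ) • (c + d)‖ = 1 ∧ ‖(1/2 : ℝ) • (c + d) - c‖ ≤ ‖c - d‖ ∧
      ‖(1/2 : ℝ) • (c + d) - d‖ ≤ ‖c - d‖) := by
  have hr := hf.1
  have e1 : (1/2 : ℝ) • (c + d) - c = (1/2 : ℝ) • (d - c) := by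
    rw [smul_add, smul_sub]
    have : c = (1/2 : ℝ) • c + (1/2 : ℝ) • c := by rw [← add_smul]; norm_num
    nth_rewrite 2 [this]
    abel
  have e2 : (1/2 : ℝ) • (c + d) - d = (1/2 : ℝ) • (c - d) := by
    rw [smul_add, smul_sub]
    have : d = (1/2 : ℝ) • d + (1/2 : ℝ) • d := by rw [← add_smul]; norm_num
    nth_rewrite 2 [this]
    abel
  have e3 : ‖(1/2 : ℝ) • (c + d) - z₀‖ < r := by
    have : (1/2 : ℝ) • (c + d) - z₀ = (1/2 : ℝ) • (c - z₀) + (1/2 : ℝ) • (d - z₀) := by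
      rw [smul_add, smul_sub, smul_sub]
      have : z₀ = (1/2 : ℝ) • z₀ + (1/2 : ℝ) • z₀ := by rw [← add_smul]; norm_num
      nth_rewrite 1 [this]
      abel
    rw [this]
    have h1 := norm_add_le ((1/2 : ℝ) • (c - z₀)) ((1/2 : ℝ) • (d - z₀))
    rw [norm_smul, norm_smul] at h1
    norm_num at h1
    linarith [hf.1]
  refine ⟨?_, ?_, ?_⟩
  · rw [hf.2 _ e3, map_smul, map_add, hc, hd, smul_eq_mul]; norm_num
  · rw [e1, norm_smul, norm_sub_rev]
    norm_num
    linarith [norm_nonneg (c - d)]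
  · rw [e2, norm_smul]
    norm_num
    linarith [norm_nonneg (c - d)]

/-- Lemma B: near a flat point the map preserves midpoints. -/
theorem map_midpoint {v : X → Y} (hv : SphIso v) {p : X →L[ℝ] ℝ} {q : Y →L[ℝ] ℝ} {x₀ : X}
    {r : ℝ} (h : Flat p x₀ r) (h' : Flat q (v x₀) r) (hx₀ : ‖x₀‖ = 1) {a b : X}
    (ha : ‖a‖ = 1) (hb : ‖b‖ = 1) (da : ‖a - x₀‖ < r / 4) (db : ‖b - x₀‖ < r / 4) :
    v ((1/2 : ℝ) • (a + b)) = (1/2 : ℝ) • (v a + v b) := by
  have hr := h.1
  have ha' := hv.norm_eq _ ha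
  have hb' := hv.norm_eq _ hb
  have da' : ‖v a - v x₀‖ < r / 4 := by rw [hv.dist_eq _ _ ha hx₀]; exact da
  have db' : ‖v b - v x₀‖ < r / 4 := by rw [hv.dist_eq _ _ hb hx₀]; exact db
  set R := lensRefl h ha hb da db with hR
  set R' := lensRefl h' ha' hb' da' db' with hR'
  set V := lensMap hv ha hb with hV
  have pa : p a = 1 := by rw [← h.2 a (by linarith), ha]
  have pb : p b = 1 := by rw [← h.2 b (by linarith), hb]
  have qa : q (v a) = 1 := by rw [← h'.2 _ (by linarith), ha']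
  have qb : q (v b) = 1 := by rw [← h'.2 _ (by linarith), hb']
  set m : Lens a b := ⟨(1/2 : ℝ) • (a + b), mid_mem h pa pb da db⟩ with hm
  set m' : Lens (v a) (v b) := ⟨(1/2 : ℝ) • (v a + v b), mid_mem h' qa qb da' db'⟩ with hm'
  set A : Lens a b := ⟨a, ha, by simp, le_rfl⟩ with hA
  set B : Lens a b := ⟨b, hb, by rw [norm_sub_rev], by simp⟩ with hB
  set A' : Lens (v a) (v b) := ⟨v a, ha', by simp, le_rfl⟩ with hA'
  set B' : Lens (v a) (v b) := ⟨v b, hb', by rw [norm_sub_rev], by simp⟩ with hB'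
  have RA : R A = B := by
    apply Subtype.ext; change a + b - a = b; abel
  have RB : R B = A := by
    apply Subtype.ext; change a + b - b = a; abel
  have RA' : R' A' = B' := by
    apply Subtype.ext; change v a + v b - v a = v b; abel
  have RB' : R' B' = A' := by
    apply Subtype.ext; change v a + v b - v b = v a; abel
  have VA : V A = A' := rfl
  have VB : V B = B' := rfl
  have RR : ∀ x, R (R x) = x := by
    intro x; apply Subtype.ext; change a + b - (a + b - x.1) = x.1; abel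
  have RR' : ∀ x, R' (R' x) = x := by
    intro x; apply Subtype.ext; change v a + v b - (v a + v b - x.1) = x.1; abel
  have dR : ∀ x, dist (R x) x = 2 * dist x m := by
    intro x
    rw [Lens.dist_def, Lens.dist_def]
    change ‖(a + b - x.1) - x.1‖ = 2 * ‖x.1 - (1/2 : ℝ) • (a + b)‖
    have : (a + b - x.1) - x.1 = (-2 : ℝ) • (x.1 - (1/2 : ℝ) • (a + b)) := by
      rw [smul_sub, smul_smul, neg_smul, two_smul]; norm_num; abel
    rw [this, norm_smul]; norm_num
  have dR' : ∀ x, dist (R' x) x = 2 * dist x m' := by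
    intro x
    rw [Lens.dist_def, Lens.dist_def]
    change ‖(v a + v b - x.1) - x.1‖ = 2 * ‖x.1 - (1/2 : ℝ) • (v a + v b)‖
    have : (v a + v b - x.1) - x.1 = (-2 : ℝ) • (x.1 - (1/2 : ℝ) • (v a + v b)) := by
      rw [smul_sub, smul_smul, neg_smul, two_smul]; norm_num; abel
    rw [this, norm_smul]; norm_num
  have Rm : R m = m := by
    have := dR m
    rw [dist_self, mul_zero] at this
    exact dist_eq_zero.mp this
  have fix := vaisala R m A B dR RR RA (((V.trans R').trans V.symm).trans R) (by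
      change R (V.symm (R' (V A))) = A
      rw [VA, RA', ← RB]
      congr 1
      rw [IsometryEquiv.symm_apply_eq, VB]) (by
      change R (V.symm (R' (V B))) = B
      rw [VB, RB', ← RA]
      congr 1
      rw [IsometryEquiv.symm_apply_eq, VA])
  change R (V.symm (R' (V m))) = m at fix
  have f1 : V.symm (R' (V m)) = m := by
    have := congrArg R fix
    rw [RR, Rm] at this
    exact this
  rw [IsometryEquiv.symm_apply_eq] at f1
  have f2 : dist (V m) m' = 0 := by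
    have := dR' (V m)
    rw [f1, dist_self] at this
    linarith
  have f3 := dist_eq_zero.mp f2
  exact congrArg Subtype.val f3

end Pool.Agent.Helper194.MUP
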