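import Pool.Agent.Helper194.A2

namespace Pool.Agent.Helper194.MUP

open Filter Topology Set

variable {X Y : Type*} [NormedAddCommGroup X] [NormedSpace ℝ X]
  [NormedAddCommGroup Y] [NormedSpace ℝ Y]

/-- a locally additive map, continuous at zero, extends to a continuous linear map. -/
theorem exists_linear_ext {f : X → Y} {ρ : ℝ} (hρ : 0 < ρ)
    (hadd : ∀ w w', ‖w‖ < ρ → ‖w'‖ < ρ → f (w + w') = f w + f w')
    (hcont : ContinuousAt f 0) : ∃ L : X →L[ℝ] Y, ∀ w, ‖w‖ < ρ → L w = f w := by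
  have f0 : f 0 = 0 := by
    have := hadd 0 0 (by simpa using hρ) (by simpa using hρ)
    simpa using this
  have hdouble : ∀ k : ℕ, ∀ w, ‖w‖ < ρ → f w = (2:ℝ)^k • f (((2:ℝ)^k)⁻¹ • w) := by
    intro k
    induction k with
    | zero => intro w _; simp
    | succ k ih =>
      intro w hw
      rw [ih w hw]
      have hsmall : ‖((2:ℝ)^(k+1))⁻¹ • w‖ < ρ := by
        rw [norm_smul, norm_inv, norm_pow, Real.norm_ofNat]
        have h1 : (1:ℝ) ≤ 2^(k+1) := one_le_pow₀ (by norm_num)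
        have h2 : ((2:ℝ)^(k+1))⁻¹ ≤ 1 := inv_le_one_of_one_le₀ h1
        have h3 := norm_nonneg w
        nlinarith
      have e : ((2:ℝ)^k)⁻¹ • w = ((2:ℝ)^(k+1))⁻¹ • w + ((2:ℝ)^(k+1))⁻¹ • w := by
        rw [← add_smul]
        congr 1
        rw [pow_succ]
        field_simp
        norm_num
      rw [e, hadd _ _ hsmall hsmall, ← two_smul ℝ (f _), smul_smul, ← pow_succ]
  -- index large enough
  let n : X → ℕ := fun w => ⌈‖w‖ / ρ⌉₊
  have hn : ∀ w : X, ∀ m : ℕ, n w ≤ m → ‖((2:ℝ)^m)⁻¹ • w‖ < ρ := by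
    intro w m hm
    have h1 : ‖w‖ / ρ ≤ m := (Nat.le_ceil _).trans (by exact_mod_cast hm)
    have h2 : (m:ℝ) < 2^m := by exact_mod_cast Nat.lt_two_pow_self
    have h3 : ‖w‖ < 2^m * ρ := by
      rw [div_le_iff₀ hρ] at h1
      nlinarith
    rw [norm_smul, norm_inv, norm_pow, Real.norm_ofNat, inv_mul_lt_iff₀ (by positivity)]
    exact h3
  let L : X → Y := fun w => (2:ℝ)^(n w) • f (((2:ℝ)^(n w))⁻¹ • w)
  have hL : ∀ w : X, ∀ m : ℕ, n w ≤ m → L w = (2:ℝ)^m • f (((2:ℝ)^m)⁻¹ • w) := by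
    intro w m hm
    obtain ⟨k, rfl⟩ := Nat.exists_eq_add_of_le hm
    have := hdouble k _ (hn w (n w) le_rfl)
    change (2:ℝ)^(n w) • f (((2:ℝ)^(n w))⁻¹ • w) = _
    rw [this, smul_smul, smul_smul, ← pow_add]
    congr 3
    rw [pow_add, mul_inv, mul_comm]
  have hLsmall : ∀ w, ‖w‖ < ρ → L w = f w := by
    intro w hw
    exact (hdouble (n w) w hw).symm
  have hLadd : ∀ w w', L (w + w') = L w + L w' := by
    intro w w'
    set m := max (n w) (max (n w') (n (w + w'))) with hm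
    have h1 : n w ≤ m := le_max_left _ _
    have h2 : n w' ≤ m := (le_max_left _ _).trans (le_max_right _ _)
    have h3 : n (w + w') ≤ m := (le_max_right _ _).trans (le_max_right _ _)
    rw [hL w m h1, hL w' m h2, hL (w + w') m h3, smul_add,
      hadd _ _ (hn w m h1) (hn w' m h2), smul_add]
  have hL0 : L 0 = 0 := by rw [hLsmall 0 (by simpa using hρ), f0]
  let Lh : X →+ Y := { toFun := L, map_zero' := hL0, map_add' := hLadd }
  have hLc : Continuous Lh := by
    apply continuous_of_continuousAt_zero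
    have : (fun w => Lh w) =ᶠ[𝓝 0] f := by
      have hball : ∀ᶠ w in 𝓝 (0:X), ‖w‖ < ρ := by
        have := Metric.ball_mem_nhds (0:X) hρ
        filter_upwards [this] with w hw
        simpa using hw
      filter_upwards [hball] with w hw
      exact hLsmall w hw
    exact hcont.congr this.symm
  refine ⟨Lh.toRealLinearMap hLc, fun w hw => ?_⟩
  exact hLsmall w hw

/-- uniqueness of linear maps given near a flat point on the sphere. -/
theorem linear_unique {p : X →L[ℝ] ℝ} {x₀ : X} {r : ℝ} (h : Flat p x₀ r) (hx : ‖x₀‖ = 1)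
    {ρ : ℝ} (hρ : 0 < ρ) {A B : X →L[ℝ] Y}
    (hAB : ∀ z, ‖z‖ = 1 → ‖z - x₀‖ < ρ → A z = B z) : A = B := by
  have hr := h.1
  have px : p x₀ = 1 := by rw [← h.self, hx]
  have h0 : A x₀ = B x₀ := hAB x₀ hx (by simpa using hρ)
  ext x
  set w := x - p x • x₀ with hw
  have pw : p w = 0 := by rw [hw, map_sub, map_smul, px]; simp
  set t : ℝ := min ρ r / (2 * (‖w‖ + 1)) with ht
  have hm : 0 < min ρ r := lt_min hρ hr
  have hwn := norm_nonneg w
  have ht0 : 0 < t := by positivity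
  have htw : ‖t • w‖ < min ρ r := by
    rw [norm_smul, Real.norm_of_nonneg ht0.le, ht, div_mul_eq_mul_div, div_lt_iff₀ (by positivity)]
    nlinarith
  have hz1 : ‖x₀ + t • w‖ = 1 := by
    rw [h.2 _ (by rw [add_sub_cancel_left]; exact lt_of_lt_of_le htw (min_le_right _ _)),
      map_add, map_smul, pw, px]; simp
  have := hAB (x₀ + t • w) hz1
    (by rw [add_sub_cancel_left]; exact lt_of_lt_of_le htw (min_le_left _ _))
  rw [map_add, map_add, h0, map_smul, map_smul] at this
  have h1 : t • A w = t • B w := add_left_cancel this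
  have h2 : A w = B w := by
    have := congrArg (fun y => t⁻¹ • y) h1
    simpa [smul_smul, inv_mul_cancel₀ ht0.ne'] using this
  have hx' : x = w + p x • x₀ := by rw [hw]; abel
  rw [hx', map_add, map_add, map_smul, map_smul, h0, h2]

/-- Lemma C, part 1: near a flat point the map is linear. -/
theorem exists_linear {v : X → Y} (hv : SphIso v) {p : X →L[ℝ] ℝ} {q : Y →L[ℝ] ℝ} {x₀ : X}
    {r : ℝ} (h : Flat p x₀ r) (h' : Flat q (v x₀) r) (hx : ‖x₀‖ = 1) :
    ∃ T : X →L[ℝ] Y, ∀ z, ‖z‖ = 1 → ‖z - x₀‖ < r / 16 → v z = T z := by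
  have hr := h.1
  have px : p x₀ = 1 := by rw [← h.self, hx]
  set f : X → Y := fun w => v (x₀ + (w - p w • x₀)) - v x₀ + p w • v x₀ with hf
  have hπ : ∀ w, ‖w - p w • x₀‖ ≤ 2 * ‖w‖ := by
    intro w
    have h1 := norm_sub_le w (p w • x₀)
    rw [norm_smul, hx, Real.norm_eq_abs] at h1
    have h2 := h.abs_le_norm w
    linarith
  have hpπ : ∀ w, p (w - p w • x₀) = 0 := by
    intro w; rw [map_sub, map_smul, px]; simp
  have unit : ∀ a, p a = 0 → ‖a‖ < r → ‖x₀ + a‖ = 1 := by
    intro a ha hn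
    rw [h.2 _ (by rw [add_sub_cancel_left]; exact hn), map_add, ha, px]; simp
  have hmid : ∀ a b, p a = 0 → p b = 0 → ‖a‖ < r / 8 → ‖b‖ < r / 8 →
      v (x₀ + (a + b)) - v x₀ = (v (x₀ + a) - v x₀) + (v (x₀ + b) - v x₀) := by
    intro a b ha hb hna hnb
    have n2a : ‖(2:ℝ) • a‖ < r / 4 := by rw [norm_smul]; norm_num; linarith
    have n2b : ‖(2:ℝ) • b‖ < r / 4 := by rw [norm_smul]; norm_num; linarith
    have u2a := unit ((2:ℝ) • a) (by rw [map_smul, ha, smul_zero]) (by linarith)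
    have u2b := unit ((2:ℝ) • b) (by rw [map_smul, hb, smul_zero]) (by linarith)
    have d2a : ‖(x₀ + (2:ℝ) • a) - x₀‖ < r / 4 := by rw [add_sub_cancel_left]; exact n2a
    have d2b : ‖(x₀ + (2:ℝ) • b) - x₀‖ < r / 4 := by rw [add_sub_cancel_left]; exact n2b
    have d0 : ‖x₀ - x₀‖ < r / 4 := by rw [sub_self, norm_zero]; linarith
    have m1 := map_midpoint hv h h' hx u2a u2b d2a d2b
    have m2 := map_midpoint hv h h' hx u2a hx d2a d0
    have m3 := map_midpoint hv h h' hx u2b hx d2b d0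
    have e1 : (1/2:ℝ) • (x₀ + (2:ℝ) • a + (x₀ + (2:ℝ) • b)) = x₀ + (a + b) := by
      rw [smul_add, smul_add, smul_add, smul_smul, smul_smul]
      norm_num
      have : x₀ = (1/2 : ℝ) • x₀ + (1/2 : ℝ) • x₀ := by rw [← add_smul]; norm_num
      nth_rewrite 3 [this]
      norm_num
      abel
    have e2 : ∀ c : X, (1/2:ℝ) • (x₀ + (2:ℝ) • c + x₀) = x₀ + c := by
      intro c
      rw [smul_add, smul_add, smul_smul]
      norm_num
      have : x₀ = (1/2 : ℝ) • x₀ + (1/2 : ℝ) • x₀ := by rw [← add_smul]; norm_num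
      nth_rewrite 3 [this]
      norm_num
      abel
    rw [e1] at m1
    rw [e2] at m2 m3
    rw [m1, m2, m3]
    rw [smul_add, smul_add, smul_add]
    have : v x₀ = (1/2 : ℝ) • v x₀ + (1/2 : ℝ) • v x₀ := by rw [← add_smul]; norm_num
    nth_rewrite 1 3 5 [this]
    abel
  have hadd : ∀ w w', ‖w‖ < r / 16 → ‖w'‖ < r / 16 → f (w + w') = f w + f w' := by
    intro w w' hw hw'
    have := hmid (w - p w • x₀) (w' - p w' • x₀) (hpπ w) (hpπ w')
      (by have := hπ w; linarith) (by have := hπ w'; linarith)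
    simp only [hf]
    have e : w + w' - p (w + w') • x₀ = (w - p w • x₀) + (w' - p w' • x₀) := by
      rw [map_add, add_smul]; abel
    rw [e, this, map_add, add_smul]
    abel
  have f0 : f 0 = 0 := by simp [hf]
  have hcont : ContinuousAt f 0 := by
    rw [ContinuousAt, f0, Metric.tendsto_nhds]
    intro ε hε
    have hsm : 0 < min (r / 16) (ε / 4) := lt_min (by positivity) (by positivity)
    filter_upwards [Metric.ball_mem_nhds (0:X) hsm] with w hw
    rw [mem_ball_zero_iff] at hw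
    have hw1 : ‖w‖ < r / 16 := lt_of_lt_of_le hw (min_le_left _ _)
    have hw2 : ‖w‖ < ε / 4 := lt_of_lt_of_le hw (min_le_right _ _)
    rw [dist_zero_right]
    have h1 := hπ w
    have u := unit (w - p w • x₀) (hpπ w) (by linarith)
    have h2 : ‖v (x₀ + (w - p w • x₀)) - v x₀‖ = ‖w - p w • x₀‖ := by
      rw [hv.dist_eq _ _ u hx, add_sub_cancel_left]
    have h3 : ‖p w • v x₀‖ ≤ ‖w‖ := by
      rw [norm_smul, hv.norm_eq _ hx, Real.norm_eq_abs, mul_one]
      exact h.abs_le_norm w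
    calc ‖f w‖ ≤ ‖v (x₀ + (w - p w • x₀)) - v x₀‖ + ‖p w • v x₀‖ := norm_add_le _ _
      _ < ε := by rw [h2]; linarith
  obtain ⟨T, hT⟩ := exists_linear_ext (by positivity : 0 < r / 16) hadd hcont
  have Tx : T x₀ = v x₀ := by
    have hs : ‖(r / 32) • x₀‖ < r / 16 := by
      rw [norm_smul, hx, Real.norm_of_nonneg (by positivity)]; linarith
    have h1 := hT _ hs
    simp only [hf] at h1
    rw [map_smul, map_smul, px, smul_eq_mul, mul_one, sub_self, add_zero, sub_self, zero_add] at h1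
    have h2 := congrArg (fun y => (r / 32)⁻¹ • y) h1
    have h3 : (r / 32) ≠ 0 := by positivity
    simpa only [smul_smul, inv_mul_cancel₀ h3, one_smul] using h2
  refine ⟨T, fun z hz hzd => ?_⟩
  have pz : p z = 1 := by rw [← h.2 z (by linarith), hz]
  have h1 := hT (z - x₀) hzd
  simp only [hf] at h1
  rw [map_sub, Tx, map_sub, pz, px, sub_self, zero_smul, zero_smul, sub_zero, add_zero,
    add_sub_cancel] at h1
  have := congrArg (fun y => y + v x₀) h1
  simpa using this.symm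

end Pool.Agent.Helper194.MUP
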