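import Pool.Agent.Helper194.A3

namespace Pool.Agent.Helper194.MUP

open Filter Topology Set

variable {X Y : Type*} [NormedAddCommGroup X] [NormedSpace ℝ X]
  [NormedAddCommGroup Y] [NormedSpace ℝ Y]

theorem SphIso.inj {v : X → Y} (hv : SphIso v) {x y : X} (hx : ‖x‖ = 1) (hy : ‖y‖ = 1)
    (h : v x = v y) : x = y := by
  have := hv.dist_eq _ _ hx hy
  rw [h, sub_self, norm_zero] at this
  exact sub_eq_zero.mp (norm_eq_zero.mp this.symm)

/-- the inverse of a surjective isometry of spheres. -/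
theorem SphIso.exists_inv {v : X → Y} (hv : SphIso v) :
    ∃ v' : Y → X, SphIso v' ∧ (∀ x, ‖x‖ = 1 → v' (v x) = x) ∧ (∀ y, ‖y‖ = 1 → v (v' y) = y) := by
  classical
  let v' : Y → X := fun y => if h : ‖y‖ = 1 then (hv.surj y h).choose else 0
  have h1 : ∀ y, ‖y‖ = 1 → ‖v' y‖ = 1 ∧ v (v' y) = y := by
    intro y hy
    have := (hv.surj y hy).choose_spec
    simp only [v', hy, dif_pos]
    exact this
  have h2 : ∀ x, ‖x‖ = 1 → v' (v x) = x := by
    intro x hx
    have := h1 (v x) (hv.norm_eq _ hx)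
    exact hv.inj this.1 hx this.2
  refine ⟨v', ⟨fun y hy => (h1 y hy).1, fun y z hy hz => ?_, fun x hx => ?_⟩, h2,
    fun y hy => (h1 y hy).2⟩
  · rw [← hv.dist_eq _ _ (h1 y hy).1 (h1 z hz).1, (h1 y hy).2, (h1 z hz).2]
  · exact ⟨v x, hv.norm_eq _ hx, h2 x hx⟩

/-- Lemma C: near a flat point the map is a linear bijection. -/
theorem exists_linear_equiv {v : X → Y} (hv : SphIso v) {p : X →L[ℝ] ℝ} {x₀ : X}
    {r : ℝ} (h : Flat p x₀ r) (hx : ‖x₀‖ = 1) :
    ∃ T : X ≃L[ℝ] Y, ∃ ρ > 0, ∀ z, ‖z‖ = 1 → ‖z - x₀‖ < ρ → v z = T z := by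
  obtain ⟨q, hq⟩ := flat_image hv h hx
  have hr := h.1
  have h6 : Flat p x₀ (r / 6) := h.mono (by positivity) (by linarith)
  obtain ⟨v', hv', hl, hrr⟩ := hv.exists_inv
  obtain ⟨T, hT⟩ := exists_linear hv h6 hq hx
  have hy : ‖v x₀‖ = 1 := hv.norm_eq _ hx
  obtain ⟨T', hT'⟩ := exists_linear hv' hq (by rw [hl x₀ hx]; exact h6) hy
  have c1 : T'.comp T = ContinuousLinearMap.id ℝ X := by
    apply linear_unique h hx (ρ := r / 6 / 16) (by positivity)
    intro z hz hzd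
    rw [ContinuousLinearMap.comp_apply, ← hT z hz hzd,
      ← hT' (v z) (hv.norm_eq _ hz) (by rw [hv.dist_eq _ _ hz hx]; exact hzd), hl z hz]
    rfl
  have c2 : T.comp T' = ContinuousLinearMap.id ℝ Y := by
    apply linear_unique hq hy (ρ := r / 6 / 16) (by positivity)
    intro y hy1 hyd
    have h1 : ‖v' y - x₀‖ < r / 6 / 16 := by
      have : x₀ = v' (v x₀) := (hl x₀ hx).symm
      rw [this, hv'.dist_eq _ _ hy1 hy]
      exact hyd
    rw [ContinuousLinearMap.comp_apply, ← hT' y hy1 hyd, ← hT (v' y) (hv'.norm_eq _ hy1) h1,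
      hrr y hy1]
    rfl
  refine ⟨ContinuousLinearEquiv.equivOfInverse T T' (fun x => ?_) (fun y => ?_), r / 6 / 16,
    by positivity, fun z hz hzd => ?_⟩
  · exact congrArg (fun f => f x) c1
  · exact congrArg (fun f => f y) c2
  · exact hT z hz hzd

/-- homogeneous extension. -/
noncomputable def homExt (v : X → Y) (x : X) : Y := ‖x‖ • v (‖x‖⁻¹ • x)

theorem homExt_unit (v : X → Y) {x : X} (hx : ‖x‖ = 1) : homExt v x = v x := by
  simp [homExt, hx]

theorem homExt_smul (v : X → Y) (x : X) {c : ℝ} (hc : 0 < c) :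
    homExt v (c • x) = c • homExt v x := by
  unfold homExt
  rw [norm_smul, Real.norm_of_nonneg hc.le, smul_smul, smul_smul]
  by_cases hx : x = 0
  · simp [hx]
  congr 3
  rw [mul_inv, mul_assoc, mul_comm, mul_assoc, mul_inv_cancel₀ hc.ne', mul_one]

/-- `U` is locally linear at `x` with linear map `T`. -/
def Rep (U : X → Y) (x : X) (T : X →L[ℝ] Y) : Prop := ∀ᶠ z in 𝓝 x, U z = T z

theorem Rep.self {U : X → Y} {x : X} {T : X →L[ℝ] Y} (h : Rep U x T) : U x = T x := by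
  have h' : ∀ᶠ z in 𝓝 x, U z = T z := h
  exact h'.self_of_nhds

theorem Rep.unique {U : X → Y} {x : X} {T T' : X →L[ℝ] Y} (h : Rep U x T) (h' : Rep U x T') :
    T = T' := by
  have h1 : ∀ᶠ z in 𝓝 x, T z = T' z := by
    filter_upwards [h, h'] with z hz hz'
    rw [← hz, hz']
  obtain ⟨ε, hε, hb⟩ := Metric.eventually_nhds_iff.mp h1
  ext w
  set t : ℝ := ε / (2 * (‖w‖ + 1)) with ht
  have hwn := norm_nonneg w
  have ht0 : 0 < t := by positivity
  have h2 := hb (y := x + t • w) (by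
    rw [dist_eq_norm, add_sub_cancel_left, norm_smul, Real.norm_of_nonneg ht0.le, ht,
      div_mul_eq_mul_div, div_lt_iff₀ (by positivity)]
    nlinarith)
  have h3 := hb (y := x) (by simpa using hε)
  rw [map_add, map_add, h3, map_smul, map_smul] at h2
  have h4 := add_left_cancel h2
  have := congrArg (fun y => t⁻¹ • y) h4
  simpa [smul_smul, inv_mul_cancel₀ ht0.ne'] using this

/-- the germ is constant along a segment of locally linear points. -/
theorem rep_segment {U : X → Y} {x y : X}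
    (hseg : ∀ t ∈ Icc (0:ℝ) 1, ∃ T : X →L[ℝ] Y, Rep U (AffineMap.lineMap x y t) T)
    {T₀ T₁ : X →L[ℝ] Y} (h0 : Rep U x T₀) (h1 : Rep U y T₁) : T₀ = T₁ := by
  by_contra hne
  have hc : Continuous (fun t : ℝ => (AffineMap.lineMap x y t : X)) := AffineMap.lineMap_continuous
  have hopen : ∀ T : X →L[ℝ] Y, IsOpen {t : ℝ | Rep U (AffineMap.lineMap x y t) T} := by
    intro T
    have : {t : ℝ | Rep U (AffineMap.lineMap x y t) T} =
        (fun t : ℝ => (AffineMap.lineMap x y t : X)) ⁻¹' {z | Rep U z T} := rfl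
    rw [this]
    apply IsOpen.preimage hc
    rw [isOpen_iff_mem_nhds]
    intro z hz
    exact eventually_eventually_nhds.mpr hz
  set A := {t : ℝ | Rep U (AffineMap.lineMap x y t) T₀} with hA
  set B := ⋃ T ∈ {T : X →L[ℝ] Y | T ≠ T₀}, {t : ℝ | Rep U (AffineMap.lineMap x y t) T} with hB
  have oA : IsOpen A := hopen T₀
  have oB : IsOpen B := isOpen_biUnion (fun T _ => hopen T)
  have cover : Icc (0:ℝ) 1 ⊆ A ∪ B := by
    intro t ht
    obtain ⟨T, hT⟩ := hseg t ht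
    by_cases hTe : T = T₀
    · left; rw [hTe] at hT; exact hT
    · right
      exact mem_biUnion (show T ∈ {T : X →L[ℝ] Y | T ≠ T₀} from hTe) hT
  have neA : (Icc (0:ℝ) 1 ∩ A).Nonempty := ⟨0, by simp, by
    change Rep U (AffineMap.lineMap x y (0:ℝ)) T₀
    rw [AffineMap.lineMap_apply_zero]; exact h0⟩
  have neB : (Icc (0:ℝ) 1 ∩ B).Nonempty := ⟨1, by simp, by
    refine mem_biUnion (show T₁ ∈ {T : X →L[ℝ] Y | T ≠ T₀} from fun h => hne h.symm) ?_
    change Rep U (AffineMap.lineMap x y (1:ℝ)) T₁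
    rw [AffineMap.lineMap_apply_one]; exact h1⟩
  obtain ⟨t, -, htA, htB⟩ := isPreconnected_Icc A B oA oB cover neA neB
  simp only [hB, mem_iUnion] at htB
  obtain ⟨T, hT, hrep⟩ := htB
  exact hT (Rep.unique hrep htA)

theorem rep_of_near {v : X → Y} {x₀ : X} (hx : ‖x₀‖ = 1) {ρ : ℝ} (hρ : 0 < ρ) {T : X →L[ℝ] Y}
    (hT : ∀ z, ‖z‖ = 1 → ‖z - x₀‖ < ρ → v z = T z) : Rep (homExt v) x₀ T := by
  have hx0 : x₀ ≠ 0 := by rintro rfl; simp at hx
  have c1 : ContinuousAt (fun z : X => ‖z‖⁻¹ • z) x₀ :=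
    (continuousAt_id.norm.inv₀ (by rw [id]; exact norm_ne_zero_iff.mpr hx0)).smul continuousAt_id
  have e1 : ‖x₀‖⁻¹ • x₀ = x₀ := by simp [hx]
  have h1 : ∀ᶠ z in 𝓝 x₀, ‖‖z‖⁻¹ • z - x₀‖ < ρ := by
    have := c1.eventually (Metric.ball_mem_nhds _ hρ)
    filter_upwards [this] with z hz
    rw [e1] at hz
    rw [← dist_eq_norm]
    exact hz
  have h2 : ∀ᶠ z in 𝓝 x₀, z ≠ 0 := eventually_ne_nhds hx0
  filter_upwards [h1, h2] with z hz hz0
  have hzn : ‖z‖ ≠ 0 := norm_ne_zero_iff.mpr hz0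
  unfold homExt
  rw [hT _ (by rw [norm_smul, norm_inv, norm_norm, inv_mul_cancel₀ hzn]) hz, map_smul, smul_smul,
    mul_inv_cancel₀ hzn, one_smul]

/-- Lemma D: the map is linear on a whole facet. -/
theorem facet_linear {v : X → Y} (hv : SphIso v) {p : X →L[ℝ] ℝ} {x₀ : X}
    {r : ℝ} (h : Flat p x₀ r) (hx : ‖x₀‖ = 1) :
    ∃ T : X ≃L[ℝ] Y, ∀ z, ‖z‖ = 1 → p z = 1 → v z = T z := by
  obtain ⟨T, ρ, hρ, hT⟩ := exists_linear_equiv hv h hx
  have hr0 : Rep (homExt v) x₀ (T : X →L[ℝ] Y) := rep_of_near hx hρ (fun z h1 h2 => hT z h1 h2)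
  have px : p x₀ = 1 := by rw [← h.self, hx]
  refine ⟨T, fun y hy hpy => ?_⟩
  have flat : ∀ t : ℝ, 0 ≤ t → t < 1 → Flat p ((1 - t) • x₀ + t • y) ((1 - t) * r) :=
    fun t h0 h1 => h.segment (by rw [hy, hpy]) h0 h1
  have unit : ∀ t : ℝ, 0 ≤ t → t < 1 → ‖(1 - t) • x₀ + t • y‖ = 1 := by
    intro t h0 h1
    rw [(flat t h0 h1).self, map_add, map_smul, map_smul, px, hpy]; simp
  have ex : ∀ t : ℝ, 0 ≤ t → t < 1 → ∃ S : X →L[ℝ] Y, Rep (homExt v) ((1 - t) • x₀ + t • y) S := by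
    intro t h0 h1
    obtain ⟨S, ρ', hρ', hS⟩ := exists_linear_equiv hv (flat t h0 h1) (unit t h0 h1)
    exact ⟨S, rep_of_near (unit t h0 h1) hρ' (fun z h1 h2 => hS z h1 h2)⟩
  have main : ∀ t : ℝ, 0 ≤ t → t < 1 →
      v ((1 - t) • x₀ + t • y) = T ((1 - t) • x₀ + t • y) := by
    intro t h0 h1
    obtain ⟨S, hS⟩ := ex t h0 h1
    have hTS : (T : X →L[ℝ] Y) = S := by
      refine rep_segment (U := homExt v) (x := x₀) (y := (1 - t) • x₀ + t • y) ?_ hr0 hS
      intro s hs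
      have e : (AffineMap.lineMap x₀ ((1 - t) • x₀ + t • y) s : X) =
          (1 - s * t) • x₀ + (s * t) • y := by
        rw [AffineMap.lineMap_apply_module]
        rw [smul_add, smul_smul, smul_smul, ← add_assoc, ← add_smul]
        congr 2
        ring
      rw [e]
      have hst0 : 0 ≤ s * t := mul_nonneg hs.1 h0
      have hst1 : s * t < 1 := by nlinarith [hs.1, hs.2]
      exact ex _ hst0 hst1
    have := hS.self
    rw [homExt_unit _ (unit t h0 h1), ← hTS] at this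
    exact this
  -- pass to the limit
  by_contra hne
  have hpos : 0 < ‖v y - T y‖ := norm_pos_iff.mpr (sub_ne_zero.mpr hne)
  -- distance estimates
  have est : ∀ t : ℝ, 0 ≤ t → t < 1 → ‖v y - T y‖ ≤ (1 - t) * (‖y - x₀‖ + ‖T (y - x₀)‖) := by
    intro t h0 h1
    have h1t : 0 ≤ 1 - t := by linarith
    have e1 : y - ((1 - t) • x₀ + t • y) = (1 - t) • (y - x₀) := by
      rw [smul_sub, sub_smul, sub_smul, one_smul, one_smul]; abel
    have e2 : v y - T y = (v y - v ((1 - t) • x₀ + t • y)) -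
        T (y - ((1 - t) • x₀ + t • y)) := by
      rw [map_sub, main t h0 h1]; abel
    rw [e2]
    calc _ ≤ ‖v y - v ((1 - t) • x₀ + t • y)‖ + ‖T (y - ((1 - t) • x₀ + t • y))‖ :=
          norm_sub_le _ _
      _ = _ := by
        rw [hv.dist_eq _ _ hy (unit t h0 h1), e1, map_smul, norm_smul, norm_smul,
          Real.norm_of_nonneg h1t]; ring
  set C := ‖y - x₀‖ + ‖T (y - x₀)‖ with hC
  have hC0 : 0 ≤ C := by positivity
  have ht := est (1 - min 1 (‖v y - T y‖ / (2 * (C + 1)))) (by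
      have := min_le_left (1:ℝ) (‖v y - T y‖ / (2 * (C + 1))); linarith) (by
      have : 0 < min (1:ℝ) (‖v y - T y‖ / (2 * (C + 1))) := lt_min one_pos (by positivity)
      linarith)
  have h3 : (1 - (1 - min 1 (‖v y - T y‖ / (2 * (C + 1))))) * C ≤ ‖v y - T y‖ / (2 * (C + 1)) * C := by
    apply mul_le_mul_of_nonneg_right _ hC0
    have := min_le_right (1:ℝ) (‖v y - T y‖ / (2 * (C + 1)))
    linarith
  have h4 : ‖v y - T y‖ / (2 * (C + 1)) * C < ‖v y - T y‖ := by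
    rw [div_mul_eq_mul_div, div_lt_iff₀ (by positivity)]
    nlinarith
  linarith

end Pool.Agent.Helper194.MUP
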