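import Pool.Agent.Helper194.A4

namespace Pool.Agent.Helper194.MUP

open Filter Topology Set

variable {X Y : Type*} [NormedAddCommGroup X] [NormedSpace ℝ X]
  [NormedAddCommGroup Y] [NormedSpace ℝ Y]

theorem exists_small_smul (z : X) {δ : ℝ} (hδ : 0 < δ) :
    ∃ ε > 0, ∀ t : ℝ, |t| < ε → ‖t • z‖ < δ := by
  have hz := norm_nonneg z
  refine ⟨δ / (‖z‖ + 1), by positivity, fun t ht => ?_⟩
  rw [norm_smul, Real.norm_eq_abs]
  have h1 : |t| * (‖z‖ + 1) < δ := by rwa [lt_div_iff₀ (by positivity)] at ht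
  have h2 := abs_nonneg t
  nlinarith

/-- Lemma E (key lemma): two facets which share a unit vector and are separated by a jointly
extreme family of unit vectors carry the same linear map. -/
theorem key_lemma {v : X → Y} {p p' : X →L[ℝ] ℝ} {Ta Tb : X ≃L[ℝ] Y} (hv : SphIso v)
    (hTa : ∀ z, ‖z‖ = 1 → p z = 1 → v z = Ta z)
    (hTb : ∀ z, ‖z‖ = 1 → p' z = 1 → v z = Tb z)
    {x₀ : X} (hx₀ : ‖x₀‖ = 1) (px₀ : p x₀ = 1) (px₀' : p' x₀ = 1)
    (E : Set X) (hE : E.Nonempty)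
    (hE1 : ∀ e ∈ E, ‖e‖ = 1 ∧ p e = 1 ∧ p' e = -1)
    (hEa : ∀ e ∈ E, ∃ r, Flat p ((1/2:ℝ) • (x₀ + e)) r)
    (hEb : ∀ e ∈ E, ∃ r, Flat p' ((1/2:ℝ) • (x₀ - e)) r)
    (hext : ∀ z, (∀ e ∈ E, ∃ δ > 0, ∀ t : ℝ, |t| < δ → ‖e + t • z‖ = 1) → z = 0) :
    Ta = Tb := by
  -- basic estimates on the two functionals
  obtain ⟨e₁, he₁⟩ := hE
  obtain ⟨ne₁, pe₁, pe₁'⟩ := hE1 e₁ he₁
  have pabs : ∀ z, |p z| ≤ ‖z‖ := by
    obtain ⟨r, hr⟩ := hEa e₁ he₁
    exact fun z => hr.abs_le_norm z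
  -- (F)
  have F : ∀ e ∈ E, ∃ δ > 0, ∀ s s' : X, p s = 0 → p' s' = 0 → ‖s‖ < δ → ‖s'‖ < δ →
      ‖e + (s - s')‖ = ‖Ta ((1/2:ℝ) • (x₀ + e) + s) - Tb ((1/2:ℝ) • (x₀ - e) + s')‖ := by
    intro e he
    obtain ⟨r, hr⟩ := hEa e he
    obtain ⟨r', hr'⟩ := hEb e he
    obtain ⟨ne, pe, pe'⟩ := hE1 e he
    refine ⟨min r r', lt_min hr.1 hr'.1, fun s s' hs hs' ns ns' => ?_⟩
    have pu : p ((1/2:ℝ) • (x₀ + e) + s) = 1 := by
      rw [map_add, map_smul, map_add, px₀, pe, hs]; norm_num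
    have pu' : p' ((1/2:ℝ) • (x₀ - e) + s') = 1 := by
      rw [map_add, map_smul, map_sub, px₀', pe', hs']; norm_num
    have nu : ‖(1/2:ℝ) • (x₀ + e) + s‖ = 1 := by
      rw [hr.2 _ (by rw [add_sub_cancel_left]; exact lt_of_lt_of_le ns (min_le_left _ _)), pu]
    have nu' : ‖(1/2:ℝ) • (x₀ - e) + s'‖ = 1 := by
      rw [hr'.2 _ (by rw [add_sub_cancel_left]; exact lt_of_lt_of_le ns' (min_le_right _ _)), pu']
    rw [← hTa _ nu pu, ← hTb _ nu' pu', hv.dist_eq _ _ nu nu']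
    congr 1
    rw [smul_add, smul_sub]
    have : e = (1/2 : ℝ) • e + (1/2 : ℝ) • e := by rw [← add_smul]; norm_num
    nth_rewrite 1 [this]
    abel
  -- Step 1
  have S1 : ∀ a b : X, p a = 0 → p' b = 0 → Ta a = Tb b → a = b := by
    intro a b ha hb hab
    have : a - b = 0 := by
      apply hext
      intro e he
      obtain ⟨δ, hδ, hF⟩ := F e he
      obtain ⟨ε₁, hε₁, h1⟩ := exists_small_smul a hδ
      obtain ⟨ε₂, hε₂, h2⟩ := exists_small_smul b hδ
      refine ⟨min ε₁ ε₂, lt_min hε₁ hε₂, fun t ht => ?_⟩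
      have f1 := hF (t • a) (t • b) (by rw [map_smul, ha, smul_zero])
        (by rw [map_smul, hb, smul_zero]) (h1 t (lt_of_lt_of_le ht (min_le_left _ _)))
        (h2 t (lt_of_lt_of_le ht (min_le_right _ _)))
      have f0 := hF 0 0 (map_zero _) (map_zero _) (by simpa using hδ) (by simpa using hδ)
      rw [sub_zero, add_zero, (hE1 e he).1, add_zero, add_zero] at f0
      have e3 : Ta (t • a) = Tb (t • b) := by rw [map_smul, map_smul, hab]
      rw [smul_sub, f1, map_add, map_add, e3, add_sub_add_right_eq_sub, ← f0]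
    exact sub_eq_zero.mp this
  -- Step 2
  have S2 : ∀ z, p z = 0 → p' z = 0 → Ta z = Tb z := by
    have c1 : p' (x₀ + e₁) = 0 := by rw [map_add, px₀', pe₁']; norm_num
    have c2 : p (x₀ + e₁) = 2 := by rw [map_add, px₀, pe₁]; norm_num
    have c3 : p (Ta.symm (Tb (x₀ + e₁))) ≠ 0 := by
      intro h0
      have := S1 (Ta.symm (Tb (x₀ + e₁))) (x₀ + e₁) h0 c1 (by simp)
      rw [this, c2] at h0
      norm_num at h0
    intro z hz hz'
    set c := p (Ta.symm (Tb z)) / p (Ta.symm (Tb (x₀ + e₁))) with hc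
    have h1 : p' (z - c • (x₀ + e₁)) = 0 := by rw [map_sub, map_smul, hz', c1]; simp
    have h2 : p (Ta.symm (Tb (z - c • (x₀ + e₁)))) = 0 := by
      rw [map_sub, map_sub, map_sub, map_smul, map_smul, map_smul, smul_eq_mul, hc,
        div_mul_cancel₀ _ c3, sub_self]
    have h3 := S1 _ _ h2 h1 (by simp)
    rw [h3, map_sub, map_smul, hz, c2, zero_sub, neg_eq_zero, smul_eq_mul] at h2
    have hc0 : c = 0 := by
      rcases mul_eq_zero.mp h2 with h | h
      · exact h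
      · norm_num at h
    rw [hc0, zero_smul, sub_zero] at h3
    have := congrArg Ta h3
    rw [ContinuousLinearEquiv.apply_symm_apply] at this
    exact this.symm
  -- Step 3
  set w : Y := (1/2:ℝ) • (Ta e₁ - Tb e₁) with hw
  have T0 : Ta x₀ = Tb x₀ := by rw [← hTa _ hx₀ px₀, ← hTb _ hx₀ px₀']
  have S3 : ∀ x, Ta x - Tb x = (p x - p' x) • w := by
    intro x
    set α := (p x + p' x) / 2 with hα
    set β := (p x - p' x) / 2 with hβ
    have hz := S2 (x - (α • x₀ + β • e₁))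
      (by rw [map_sub, map_add, map_smul, map_smul, px₀, pe₁, hα, hβ, smul_eq_mul, smul_eq_mul]
          ring)
      (by rw [map_sub, map_add, map_smul, map_smul, px₀', pe₁', hα, hβ, smul_eq_mul, smul_eq_mul]
          ring)
    rw [map_sub, map_sub, map_add, map_add, map_smul, map_smul, map_smul, map_smul, T0] at hz
    have e1 : Ta x - Tb x = β • Ta e₁ - β • Tb e₁ := by
      rw [sub_eq_sub_iff_add_eq_add] at hz ⊢
      have := hz
      have h3 : Ta x + (β • Tb e₁) + α • Tb x₀ = β • Ta e₁ + Tb x + α • Tb x₀ := by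
        calc Ta x + (β • Tb e₁) + α • Tb x₀ = Ta x + (α • Tb x₀ + β • Tb e₁) := by abel
          _ = Tb x + (α • Tb x₀ + β • Ta e₁) := this
          _ = _ := by abel
      exact add_right_cancel h3
    rw [e1, hw, smul_smul, ← smul_sub]
    congr 1
    rw [hβ]; ring
  set R : X →L[ℝ] Y := (Ta : X →L[ℝ] Y) - p.smulRight w with hR
  have Ra : ∀ x, R x = Ta x - p x • w := fun x => rfl
  have Rb : ∀ x, R x = Tb x - p' x • w := by
    intro x
    have := S3 x
    rw [sub_smul, sub_eq_iff_eq_add] at this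
    rw [Ra, this]; abel
  have near : ∀ e ∈ E, ∃ δ > 0, ∀ d, ‖d - e‖ < δ → ‖R d‖ = ‖d‖ := by
    intro e he
    obtain ⟨δ, hδ, hF⟩ := F e he
    obtain ⟨ne, pe, pe'⟩ := hE1 e he
    refine ⟨δ / 2, by positivity, fun d hd => ?_⟩
    have pu : p ((1/2:ℝ) • (x₀ + e)) = 1 := by
      rw [map_smul, map_add, px₀, pe]; norm_num
    have pu' : p' ((1/2:ℝ) • (x₀ + e)) = 0 := by
      rw [map_smul, map_add, px₀', pe']; norm_num
    have nu : ‖(1/2:ℝ) • (x₀ + e)‖ = 1 := by
      obtain ⟨r, hr⟩ := hEa e he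
      rw [hr.self, pu]
    set s' : X := (-(p (d - e))) • ((1/2:ℝ) • (x₀ + e)) with hs'
    set s : X := (d - e) + s' with hs
    have ps : p s = 0 := by
      rw [hs, map_add, hs', map_smul, pu, smul_eq_mul]; ring
    have ps' : p' s' = 0 := by rw [hs', map_smul, pu', smul_zero]
    have ns' : ‖s'‖ ≤ ‖d - e‖ := by
      rw [hs', norm_smul, nu, mul_one, norm_neg, Real.norm_eq_abs]; exact pabs _
    have ns : ‖s‖ ≤ 2 * ‖d - e‖ := by
      have := norm_add_le (d - e) s'
      rw [hs]; linarith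
    have f := hF s s' ps ps' (by linarith) (by linarith [norm_nonneg (d - e)])
    have e1 : e + (s - s') = d := by rw [hs]; abel
    rw [e1] at f
    rw [f]
    have e2 : Ta ((1/2:ℝ) • (x₀ + e) + s) = R ((1/2:ℝ) • (x₀ + e) + s) + w := by
      rw [Ra, map_add p, pu, ps, add_zero, one_smul, sub_add_cancel]
    have e3 : Tb ((1/2:ℝ) • (x₀ - e) + s') = R ((1/2:ℝ) • (x₀ - e) + s') + w := by
      rw [Rb, map_add p', ps', map_smul, map_sub, px₀', pe', add_zero]
      norm_num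
    rw [e2, e3, add_sub_add_right_eq_sub, ← map_sub]
    congr 2
    have e4 : d = e + (s - s') := e1.symm
    rw [e4, smul_add, smul_sub]
    have : e = (1/2 : ℝ) • e + (1/2 : ℝ) • e := by rw [← add_smul]; norm_num
    nth_rewrite 1 [this]
    abel
  have nearRay : ∀ e ∈ E, ∀ z, ∃ δ > 0, ∀ t : ℝ, |t| < δ → ‖e + t • z‖ = ‖R (e + t • z)‖ := by
    intro e he z
    obtain ⟨δ, hδ, hn⟩ := near e he
    obtain ⟨ε, hε, h1⟩ := exists_small_smul z hδ
    exact ⟨ε, hε, fun t ht => (hn _ (by rw [add_sub_cancel_left]; exact h1 t ht)).symm⟩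
  have nRe : ∀ e ∈ E, ‖R e‖ = 1 := by
    intro e he
    obtain ⟨δ, hδ, hn⟩ := near e he
    rw [hn e (by simpa using hδ), (hE1 e he).1]
  -- Step 4
  have Rinj : ∀ ω, R ω = 0 → ω = 0 := by
    intro ω hω
    apply hext
    intro e he
    obtain ⟨δ, hδ, h1⟩ := nearRay e he ω
    refine ⟨δ, hδ, fun t ht => ?_⟩
    rw [h1 t ht, map_add, map_smul, hω, smul_zero, add_zero, nRe e he]
  obtain ⟨w', hw'⟩ : ∃ w', R w' = w := by
    have h1 : R (Ta.symm w) = (1 - p (Ta.symm w)) • w := by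
      rw [Ra, ContinuousLinearEquiv.apply_symm_apply, sub_smul, one_smul]
    have h2 : 1 - p (Ta.symm w) ≠ 0 := by
      intro h0
      rw [h0, zero_smul] at h1
      have h3 := Rinj _ h1
      rw [h3, map_zero] at h0
      norm_num at h0
    refine ⟨(1 - p (Ta.symm w))⁻¹ • Ta.symm w, ?_⟩
    rw [map_smul, h1, smul_smul, inv_mul_cancel₀ h2, one_smul]
  -- Step 5
  have hw0 : w' = 0 := by
    apply hext
    intro e he
    obtain ⟨ne, pe, pe'⟩ := hE1 e he
    obtain ⟨δ, hδ, h1⟩ := nearRay e he w'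
    have n1 : ‖R e + w‖ = 1 := by
      rw [Ra, pe, one_smul, sub_add_cancel, ← hTa e ne pe]; exact hv.norm_eq _ ne
    have n2 : ‖R e - w‖ = 1 := by
      have hne : ‖-e‖ = 1 := by rw [norm_neg]; exact ne
      have hpe : p' (-e) = 1 := by rw [map_neg, pe']; norm_num
      have h3 : R e - w = -(Tb (-e)) := by
        rw [Rb, pe', map_neg, neg_smul, one_smul]; abel
      rw [h3, norm_neg, ← hTb _ hne hpe]
      exact hv.norm_eq _ hne
    have n0 := nRe e he
    have upper : ∀ t : ℝ, |t| ≤ 1 → ‖R e + t • w‖ ≤ 1 := by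
      intro t ht
      rw [abs_le] at ht
      have e1 : R e + t • w = ((1 + t) / 2) • (R e + w) + ((1 - t) / 2) • (R e - w) := by
        have : R e = ((1 + t) / 2) • R e + ((1 - t) / 2) • R e := by
          rw [← add_smul]
          have : (1 + t) / 2 + (1 - t) / 2 = 1 := by ring
          rw [this, one_smul]
        have h4 : t • w = ((1 + t) / 2) • w - ((1 - t) / 2) • w := by
          rw [← sub_smul]; congr 1; ring
        rw [smul_add, smul_sub]
        nth_rewrite 1 [this]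
        rw [h4]
        abel
      rw [e1]
      calc _ ≤ ‖((1 + t) / 2) • (R e + w)‖ + ‖((1 - t) / 2) • (R e - w)‖ := norm_add_le _ _
        _ = 1 := by
          rw [norm_smul, norm_smul, n1, n2, Real.norm_of_nonneg (by linarith),
            Real.norm_of_nonneg (by linarith)]; ring
    have lower : ∀ t : ℝ, |t| ≤ 1 → 1 ≤ ‖R e + t • w‖ := by
      intro t ht
      have h3 := upper (-t) (by rwa [abs_neg])
      have h4 : (2:ℝ) • R e = (R e + t • w) + (R e + (-t) • w) := by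
        rw [two_smul, neg_smul]; abel
      have h5 : ‖(2:ℝ) • R e‖ = 2 := by rw [norm_smul, n0]; norm_num
      have h6 := norm_add_le (R e + t • w) (R e + (-t) • w)
      rw [← h4, h5] at h6
      linarith
    refine ⟨min δ 1, lt_min hδ one_pos, fun t ht => ?_⟩
    rw [h1 t (lt_of_lt_of_le ht (min_le_left _ _)), map_add, map_smul, hw']
    have ht1 : |t| ≤ 1 := (lt_of_lt_of_le ht (min_le_right _ _)).le
    exact le_antisymm (upper t ht1) (lower t ht1)
  have hw00 : w = 0 := by rw [← hw', hw0, map_zero]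
  ext x
  have := S3 x
  rw [hw00, smul_zero] at this
  exact sub_eq_zero.mp this

end Pool.Agent.Helper194.MUP
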