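import Pool.Agent.Helper194.A5

namespace Pool.Agent.Helper194.MUP

open Filter Topology Set

/-- combinatorial assumptions on the family. -/
structure FamOK {ι : Type*} (F : Set (Finset ι)) : Prop where
  her : ∀ A ∈ F, ∀ B, B ⊆ A → B ∈ F
  single : ∀ i, {i} ∈ F
  exists_max : ∀ A ∈ F, ∃ B ∈ F, A ⊆ B ∧ ∀ C ∈ F, B ⊆ C → C = B

/-- what we use about a combinatorial space. -/
structure Model {ι : Type*} (F : Set (Finset ι)) (X : Type*) [NormedAddCommGroup X]
    [NormedSpace ℝ X] where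
  e : ι → X
  c : ι → X →L[ℝ] ℝ
  c_e_same : ∀ i, c i (e i) = 1
  c_e_ne : ∀ i j, i ≠ j → c i (e j) = 0
  dense : ∀ x : X, x ∈ closure (Submodule.span ℝ (Set.range e) : Set X)
  le_norm : ∀ A ∈ F, ∀ x, ∑ i ∈ A, |c i x| ≤ ‖x‖
  attained : ∀ x, ∃ A ∈ F, ∑ i ∈ A, |c i x| = ‖x‖
  locfin : ∀ x, (∀ i, c i x ≠ 0) → ∃ δ > 0, ∀ y, ‖y - x‖ < δ → ∀ B ∈ F,
    ∑ i ∈ B, |c i y| = ‖y‖ → ∑ i ∈ B, |c i x| = ‖x‖

variable {ι : Type*} {F : Set (Finset ι)} {X Y : Type*} [NormedAddCommGroup X] [NormedSpace ℝ X]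
  [NormedAddCommGroup Y] [NormedSpace ℝ Y]

namespace Model

variable (M : Model F X)

/-- the vector with coefficients `g` on the finite set `s`. -/
noncomputable def vec (s : Finset ι) (g : ι → ℝ) : X := ∑ l ∈ s, g l • M.e l

theorem c_vec_mem {s : Finset ι} {g : ι → ℝ} {i : ι} (hi : i ∈ s) : M.c i (M.vec s g) = g i := by
  unfold vec
  rw [map_sum, Finset.sum_eq_single_of_mem i hi]
  · rw [map_smul, M.c_e_same, smul_eq_mul, mul_one]
  · intro j _ hj
    rw [map_smul, M.c_e_ne i j hj.symm, smul_zero]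

theorem c_vec_notMem {s : Finset ι} {g : ι → ℝ} {i : ι} (hi : i ∉ s) :
    M.c i (M.vec s g) = 0 := by
  unfold vec
  rw [map_sum]
  apply Finset.sum_eq_zero
  intro j hj
  have : i ≠ j := by rintro rfl; exact hi hj
  rw [map_smul, M.c_e_ne i j this, smul_zero]

theorem total {x : X} (h : ∀ i, M.c i x = 0) : x = 0 := by
  obtain ⟨A, _, hA⟩ := M.attained x
  have : ‖x‖ = 0 := by
    rw [← hA]
    apply Finset.sum_eq_zero
    intro i _
    rw [h i, abs_zero]
  exact norm_eq_zero.mp this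

theorem abs_c_le (hF : FamOK F) (i : ι) (x : X) : |M.c i x| ≤ ‖x‖ := by
  have := M.le_norm {i} (hF.single i) x
  rwa [Finset.sum_singleton] at this

/-- the functional attached to a set and a sign. -/
noncomputable def fn (A : Finset ι) (ε : ι → ℝ) : X →L[ℝ] ℝ := ∑ i ∈ A, ε i • M.c i

theorem fn_apply (A : Finset ι) (ε : ι → ℝ) (x : X) : M.fn A ε x = ∑ i ∈ A, ε i * M.c i x := by
  simp [fn]

theorem fn_congr {A : Finset ι} {ε ε' : ι → ℝ} (h : ∀ i ∈ A, ε i = ε' i) :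
    M.fn A ε = M.fn A ε' := by
  unfold fn
  apply Finset.sum_congr rfl
  intro i hi
  rw [h i hi]

theorem sum_abs_c_vec [DecidableEq ι] (D s : Finset ι) (g : ι → ℝ) :
    ∑ i ∈ D, |M.c i (M.vec s g)| = ∑ i ∈ D ∩ s, |g i| := by
  rw [← Finset.filter_mem_eq_inter, Finset.sum_filter]
  apply Finset.sum_congr rfl
  intro i _
  split_ifs with h
  · rw [M.c_vec_mem h]
  · rw [M.c_vec_notMem h, abs_zero]

theorem norm_vec_le {s : Finset ι} {g : ι → ℝ} {K : ℝ} (hF : FamOK F)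
    (h : ∀ D ∈ F, D ⊆ s → ∑ i ∈ D, |g i| ≤ K) : ‖M.vec s g‖ ≤ K := by
  classical
  obtain ⟨D, hD, hDe⟩ := M.attained (M.vec s g)
  rw [← hDe, M.sum_abs_c_vec]
  exact h _ (hF.her D hD _ Finset.inter_subset_left) Finset.inter_subset_right

theorem fn_vec {A s : Finset ι} (hA : A ⊆ s) (ε g : ι → ℝ) :
    M.fn A ε (M.vec s g) = ∑ i ∈ A, ε i * g i := by
  rw [M.fn_apply]
  apply Finset.sum_congr rfl
  intro i hi
  rw [M.c_vec_mem (hA hi)]

/-- flatness of finitely supported vectors with a unique norming set. -/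
theorem flat_vec (hF : FamOK F) {A s : Finset ι} {ε g : ι → ℝ}
    (hAF : A ∈ F) (hmax : ∀ C ∈ F, A ⊆ C → C = A) (hAs : A ⊆ s)
    (hsign : ∀ i ∈ A, ε i * g i = |g i|) (hε : ∀ i ∈ A, ε i = 1 ∨ ε i = -1)
    (huniq : ∀ D ∈ F, D ⊆ s → D ≠ A → ∑ i ∈ D, |g i| < ∑ i ∈ A, |g i|) :
    ∃ r, Flat (M.fn A ε) (M.vec s g) r := by
  classical
  -- a uniform gap
  obtain ⟨δ, hδ, hgap⟩ : ∃ δ > 0, ∀ D ∈ F, D ⊆ s → D ≠ A →
      ∑ i ∈ D, |g i| + δ ≤ ∑ i ∈ A, |g i| := by
    have hfin : {D : Finset ι | D ∈ F ∧ D ⊆ s ∧ D ≠ A}.Finite := by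
      apply (s.powerset.finite_toSet).subset
      rintro D ⟨_, h, _⟩
      simpa using h
    have hev : ∀ᶠ δ in 𝓝[>] (0:ℝ), ∀ D ∈ {D : Finset ι | D ∈ F ∧ D ⊆ s ∧ D ≠ A},
        ∑ i ∈ D, |g i| + δ ≤ ∑ i ∈ A, |g i| := by
      rw [hfin.eventually_all]
      rintro D ⟨h1, h2, h3⟩
      have h4 := huniq D h1 h2 h3
      have h5 : ∀ᶠ δ in 𝓝 (0:ℝ), δ < ∑ i ∈ A, |g i| - ∑ i ∈ D, |g i| :=
        eventually_lt_nhds (by linarith)
      filter_upwards [nhdsWithin_le_nhds h5] with δ hδ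
      linarith
    obtain ⟨δ, h1, h2⟩ := (hev.and self_mem_nhdsWithin).exists
    exact ⟨δ, h2, fun D a b c => h1 D ⟨a, b, c⟩⟩
  refine ⟨δ / 2, by positivity, fun z hz => ?_⟩
  set x := M.vec s g with hx
  have cA : ∀ i ∈ A, M.c i x = g i := fun i hi => M.c_vec_mem (hAs hi)
  have hclose : ∀ i, |M.c i z - M.c i x| < δ / 2 := by
    intro i
    rw [← map_sub]
    exact lt_of_le_of_lt (M.abs_c_le hF i _) hz
  have hA1 : ∑ i ∈ A, |g i| - ‖z - x‖ ≤ ‖z‖ := by
    have h1 := M.le_norm A hAF z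
    have h2 := M.le_norm A hAF (z - x)
    have h3 : ∑ i ∈ A, |g i| ≤ ∑ i ∈ A, |M.c i z| + ∑ i ∈ A, |M.c i (z - x)| := by
      rw [← Finset.sum_add_distrib]
      apply Finset.sum_le_sum
      intro i hi
      rw [← cA i hi, map_sub]
      have := abs_sub_abs_le_abs_sub (M.c i x) (M.c i z)
      rw [abs_sub_comm] at this
      linarith
    linarith
  obtain ⟨D, hD, hDe⟩ := M.attained z
  have hDA : D = A := by
    by_contra hne
    have hDs : D ∩ s ≠ A := by
      intro h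
      apply hne
      apply hmax D hD
      rw [← h]
      exact Finset.inter_subset_left
    have h1 := hgap (D ∩ s) (hF.her D hD _ Finset.inter_subset_left) Finset.inter_subset_right hDs
    have h2 := M.le_norm D hD (z - x)
    have h3 : ∑ i ∈ D, |M.c i z| ≤ ∑ i ∈ D, |M.c i x| + ∑ i ∈ D, |M.c i (z - x)| := by
      rw [← Finset.sum_add_distrib]
      apply Finset.sum_le_sum
      intro i _
      rw [map_sub]
      have := abs_sub_abs_le_abs_sub (M.c i z) (M.c i x)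
      linarith
    rw [M.sum_abs_c_vec] at h3
    linarith
  have hgi : ∀ i ∈ A, δ ≤ |g i| := by
    intro i hi
    have h1 := hgap (A.erase i) (hF.her A hAF _ (Finset.erase_subset _ _))
      ((Finset.erase_subset _ _).trans hAs) (by
        intro h
        have := Finset.notMem_erase i A
        rw [h] at this
        exact this hi)
    rw [← Finset.add_sum_erase A _ hi] at h1
    linarith
  rw [← hDe, hDA, M.fn_apply]
  apply Finset.sum_congr rfl
  intro i hi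
  have h1 := hgi i hi
  have h2 := hclose i
  rw [cA i hi, abs_lt] at h2
  have h3 := hsign i hi
  rcases hε i hi with he | he
  · rw [he, one_mul] at h3 ⊢
    rw [← h3] at h1
    apply abs_of_nonneg
    linarith [h2.1]
  · rw [he, neg_one_mul] at h3 ⊢
    rw [← h3] at h1
    apply abs_of_nonpos
    linarith [h2.2]

end Model

end Pool.Agent.Helper194.MUP
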