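import Pool.Agent.Helper194.A6

namespace Pool.Agent.Helper194.MUP

open Filter Topology Set

variable {ι : Type*} {F : Set (Finset ι)} {X Y : Type*} [NormedAddCommGroup X] [NormedSpace ℝ X]
  [NormedAddCommGroup Y] [NormedSpace ℝ Y]

namespace Model

variable (M : Model F X)

theorem vec_subset {s S : Finset ι} {g : ι → ℝ} (h : s ⊆ S) (h0 : ∀ l ∈ S, l ∉ s → g l = 0) :
    M.vec s g = M.vec S g := by
  unfold vec
  apply Finset.sum_subset h
  intro l hl hls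
  rw [h0 l hl hls, zero_smul]

theorem half_vec_add (S : Finset ι) (a b : ι → ℝ) :
    (1/2:ℝ) • (M.vec S a + M.vec S b) = M.vec S (fun l => (a l + b l) / 2) := by
  unfold vec
  rw [← Finset.sum_add_distrib, Finset.smul_sum]
  apply Finset.sum_congr rfl
  intro l _
  rw [← add_smul, smul_smul]
  congr 1
  ring

theorem half_vec_sub (S : Finset ι) (a b : ι → ℝ) :
    (1/2:ℝ) • (M.vec S a - M.vec S b) = M.vec S (fun l => (a l - b l) / 2) := by
  unfold vec
  rw [← Finset.sum_sub_distrib, Finset.smul_sum]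
  apply Finset.sum_congr rfl
  intro l _
  rw [← sub_smul, smul_smul]
  congr 1
  ring

/-- flatness from a unique norming set, second form. -/
theorem flat_vec' (hF : FamOK F) {A S : Finset ι} {ε g : ι → ℝ}
    (hAF : A ∈ F) (hmax : ∀ C ∈ F, A ⊆ C → C = A) (hAS : A ⊆ S)
    (hε : ∀ i, ε i = 1 ∨ ε i = -1) (h1 : ∑ l ∈ A, ε l * g l = 1)
    (hle : ∀ D ∈ F, D ⊆ S → ∑ l ∈ D, |g l| ≤ 1)
    (huniq : ∀ D ∈ F, D ⊆ S → ∑ l ∈ D, |g l| = 1 → D = A) :
    ∃ r, Flat (M.fn A ε) (M.vec S g) r := by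
  have hterm : ∀ l ∈ A, ε l * g l ≤ |g l| := by
    intro l _
    rcases hε l with h | h
    · rw [h, one_mul]; exact le_abs_self _
    · rw [h, neg_one_mul]; exact neg_le_abs _
  have hsum : ∑ l ∈ A, ε l * g l = ∑ l ∈ A, |g l| :=
    le_antisymm (Finset.sum_le_sum hterm) (by rw [h1]; exact hle A hAF hAS)
  have hsign := (Finset.sum_eq_sum_iff_of_le hterm).mp hsum
  apply M.flat_vec hF hAF hmax hAS hsign (fun i _ => hε i)
  intro D hD hDS hne
  rw [← hsum, h1]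
  exact lt_of_le_of_ne (hle D hD hDS) (fun h => hne (huniq D hD hDS h))

/-- the linear map attached to a signed maximal set. -/
theorem exists_T (hF : FamOK F) {v : X → Y} (hv : SphIso v) {A : Finset ι} (hAF : A ∈ F)
    (hne : A.Nonempty) (hmax : ∀ C ∈ F, A ⊆ C → C = A) {ε : ι → ℝ}
    (hε : ∀ i, ε i = 1 ∨ ε i = -1) :
    ∃ T : X ≃L[ℝ] Y, ∀ z, ‖z‖ = 1 → M.fn A ε z = 1 → v z = T z := by
  classical
  have hN : (0:ℝ) < A.card := by exact_mod_cast hne.card_pos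
  have habs : ∀ l, |ε l / A.card| = 1 / A.card := by
    intro l
    rw [abs_div, abs_of_pos hN]
    rcases hε l with h | h <;> simp [h]
  have hsq : ∀ l, ε l * (ε l / A.card) = 1 / A.card := by
    intro l
    rcases hε l with h | h <;> rw [h] <;> ring
  have h1 : ∑ l ∈ A, ε l * (ε l / A.card) = 1 := by
    rw [Finset.sum_congr rfl (fun l _ => hsq l), Finset.sum_const, nsmul_eq_mul]
    field_simp
  obtain ⟨r, hr⟩ := M.flat_vec' hF (ε := ε) (g := fun l => ε l / A.card) hAF hmax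
    (Finset.Subset.refl A) hε h1 (by
      intro D hD hDA
      rw [Finset.sum_congr rfl (fun l _ => habs l), Finset.sum_const, nsmul_eq_mul, mul_one_div,
        div_le_one hN]
      exact_mod_cast Finset.card_le_card hDA) (by
      intro D hD hDA h
      rw [Finset.sum_congr rfl (fun l _ => habs l), Finset.sum_const, nsmul_eq_mul, mul_one_div,
        div_eq_one_iff_eq hN.ne'] at h
      exact Finset.eq_of_subset_of_card_le hDA (by exact_mod_cast h.ge))
  have hnorm : ‖M.vec A (fun l => ε l / A.card)‖ = 1 := by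
    rw [hr.self, M.fn_vec (Finset.Subset.refl A), h1]
  exact facet_linear hv hr hnorm

theorem ext_coord1 (hF : FamOK F) {e z : X} {k : ι} (hk : |M.c k e| = 1)
    (h : ∃ δ > 0, ∀ t : ℝ, |t| < δ → ‖e + t • z‖ = 1) : M.c k z = 0 := by
  obtain ⟨δ, hδ, hz⟩ := h
  have h1 := hz (δ / 2) (by rw [abs_of_pos (by positivity)]; linarith)
  have h2 := hz (-(δ / 2)) (by rw [abs_neg, abs_of_pos (by positivity)]; linarith)
  have h3 := M.abs_c_le hF k (e + (δ / 2) • z)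
  have h4 := M.abs_c_le hF k (e + (-(δ / 2)) • z)
  rw [h1, map_add, map_smul, smul_eq_mul, abs_le] at h3
  rw [h2, map_add, map_smul, smul_eq_mul, abs_le] at h4
  rcases eq_or_eq_neg_of_abs_eq hk with hh | hh
  · rw [hh] at h3 h4
    have h5 : δ / 2 * M.c k z = 0 := by linarith [h3.2, h4.2]
    rcases mul_eq_zero.mp h5 with h6 | h6
    · linarith
    · exact h6
  · rw [hh] at h3 h4
    have h5 : δ / 2 * M.c k z = 0 := by linarith [h3.1, h4.1]
    rcases mul_eq_zero.mp h5 with h6 | h6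
    · linarith
    · exact h6

theorem ext_coord2 [DecidableEq ι] {e z : X} {i k : ι} (hik : i ≠ k)
    (hpair : ({i, k} : Finset ι) ∈ F) (hi : |M.c i e| = 1) (hzi : M.c i z = 0)
    (hke : M.c k e = 0)
    (h : ∃ δ > 0, ∀ t : ℝ, |t| < δ → ‖e + t • z‖ = 1) : M.c k z = 0 := by
  obtain ⟨δ, hδ, hz⟩ := h
  have h1 := hz (δ / 2) (by rw [abs_of_pos (by positivity)]; linarith)
  have h3 := M.le_norm _ hpair (e + (δ / 2) • z)
  rw [Finset.sum_pair hik, h1, map_add, map_add, map_smul, map_smul, hzi, hke, smul_zero,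
    add_zero, hi, zero_add, smul_eq_mul, abs_mul, abs_of_pos (by positivity : 0 < δ / 2)] at h3
  have h4 : δ / 2 * |M.c k z| ≤ 0 := by linarith
  have h5 : |M.c k z| ≤ 0 := by
    by_contra hc
    push Not at hc
    have : 0 < δ / 2 * |M.c k z| := by positivity
    linarith
  exact abs_nonpos_iff.mp h5

/-- common form of the two linking steps. -/
theorem link (hF : FamOK F) {v : X → Y} (hv : SphIso v) {A B S₀ : Finset ι}
    (hAF : A ∈ F) (hBF : B ∈ F) (hAmax : ∀ C ∈ F, A ⊆ C → C = A) (hBmax : ∀ C ∈ F, B ⊆ C → C = B)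
    {εA εB : ι → ℝ} (hεA : ∀ i, εA i = 1 ∨ εA i = -1) (hεB : ∀ i, εB i = 1 ∨ εB i = -1)
    {Ta Tb : X ≃L[ℝ] Y} (hTa : ∀ z, ‖z‖ = 1 → M.fn A εA z = 1 → v z = Ta z)
    (hTb : ∀ z, ‖z‖ = 1 → M.fn B εB z = 1 → v z = Tb z)
    {a : ι → ℝ} (ha0 : ∀ l, l ∉ S₀ → a l = 0) (hAS : A ⊆ S₀) (hBS : B ⊆ S₀)
    (haA : ∑ l ∈ A, εA l * a l = 1) (haB : ∑ l ∈ B, εB l * a l = 1)
    (hale : ∀ D ∈ F, ∑ l ∈ D, |a l| ≤ 1)
    (W : Set (Finset ι × (ι → ℝ))) (hW : W.Nonempty)
    (hb0 : ∀ w ∈ W, ∀ l, l ∉ w.1 → w.2 l = 0)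
    (hbA : ∀ w ∈ W, ∑ l ∈ A, εA l * w.2 l = 1) (hbB : ∀ w ∈ W, ∑ l ∈ B, εB l * w.2 l = -1)
    (hble : ∀ w ∈ W, ∀ D ∈ F, ∑ l ∈ D, |w.2 l| ≤ 1)
    (hua : ∀ w ∈ W, ∀ D ∈ F, ∑ l ∈ D, |a l + w.2 l| = 2 → D = A)
    (hub : ∀ w ∈ W, ∀ D ∈ F, ∑ l ∈ D, |a l - w.2 l| = 2 → D = B)
    (hext : ∀ z, (∀ w ∈ W, ∃ δ > 0, ∀ t : ℝ, |t| < δ → ‖M.vec w.1 w.2 + t • z‖ = 1) → z = 0) :
    Ta = Tb := by
  classical
  have hx₀le : ‖M.vec S₀ a‖ ≤ 1 := M.norm_vec_le hF (fun D hD _ => hale D hD)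
  have pA : M.fn A εA (M.vec S₀ a) = 1 := by rw [M.fn_vec hAS, haA]
  have pB : M.fn B εB (M.vec S₀ a) = 1 := by rw [M.fn_vec hBS, haB]
  -- rewriting on a common support
  have big : ∀ w ∈ W, M.vec S₀ a = M.vec (S₀ ∪ w.1) a ∧ M.vec w.1 w.2 = M.vec (S₀ ∪ w.1) w.2 := by
    intro w hw
    exact ⟨M.vec_subset Finset.subset_union_left (fun l _ h => ha0 l h),
      M.vec_subset Finset.subset_union_right (fun l _ h => hb0 w hw l h)⟩
  have hAS' : ∀ w : Finset ι × (ι → ℝ), A ⊆ S₀ ∪ w.1 := fun w => hAS.trans Finset.subset_union_left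
  have hBS' : ∀ w : Finset ι × (ι → ℝ), B ⊆ S₀ ∪ w.1 := fun w => hBS.trans Finset.subset_union_left
  have qA : ∀ w ∈ W, M.fn A εA (M.vec w.1 w.2) = 1 := by
    intro w hw; rw [(big w hw).2, M.fn_vec (hAS' w), hbA w hw]
  have qB : ∀ w ∈ W, M.fn B εB (M.vec w.1 w.2) = -1 := by
    intro w hw; rw [(big w hw).2, M.fn_vec (hBS' w), hbB w hw]
  have hsumle : ∀ w ∈ W, ∀ D ∈ F, ∑ l ∈ D, |(a l + w.2 l) / 2| ≤ 1 := by
    intro w hw D hD
    have h1 := hale D hD
    have h2 := hble w hw D hD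
    calc ∑ l ∈ D, |(a l + w.2 l) / 2| ≤ ∑ l ∈ D, (|a l| / 2 + |w.2 l| / 2) := by
          apply Finset.sum_le_sum
          intro l _
          rw [abs_div, abs_two, ← add_div]
          exact div_le_div_of_nonneg_right (abs_add_le _ _) (by norm_num)
      _ ≤ 1 := by
          rw [Finset.sum_add_distrib, ← Finset.sum_div, ← Finset.sum_div]
          linarith
  have hsumle' : ∀ w ∈ W, ∀ D ∈ F, ∑ l ∈ D, |(a l - w.2 l) / 2| ≤ 1 := by
    intro w hw D hD
    have h1 := hale D hD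
    have h2 := hble w hw D hD
    calc ∑ l ∈ D, |(a l - w.2 l) / 2| ≤ ∑ l ∈ D, (|a l| / 2 + |w.2 l| / 2) := by
          apply Finset.sum_le_sum
          intro l _
          rw [abs_div, abs_two, ← add_div]
          exact div_le_div_of_nonneg_right (abs_sub _ _) (by norm_num)
      _ ≤ 1 := by
          rw [Finset.sum_add_distrib, ← Finset.sum_div, ← Finset.sum_div]
          linarith
  have habs2 : ∀ (D : Finset ι) (g : ι → ℝ), ∑ l ∈ D, |g l / 2| = 1 → ∑ l ∈ D, |g l| = 2 := by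
    intro D g h
    have : ∑ l ∈ D, |g l / 2| = (∑ l ∈ D, |g l|) / 2 := by
      rw [Finset.sum_div]
      apply Finset.sum_congr rfl
      intro l _
      rw [abs_div, abs_two]
    rw [this] at h
    linarith
  have flA : ∀ w ∈ W, ∃ r, Flat (M.fn A εA) ((1/2:ℝ) • (M.vec S₀ a + M.vec w.1 w.2)) r := by
    intro w hw
    rw [(big w hw).1, (big w hw).2, M.half_vec_add]
    apply M.flat_vec' hF hAF hAmax (hAS' w) hεA
    · have : ∑ l ∈ A, εA l * ((a l + w.2 l) / 2)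
          = (∑ l ∈ A, εA l * a l) / 2 + (∑ l ∈ A, εA l * w.2 l) / 2 := by
        rw [Finset.sum_div, Finset.sum_div, ← Finset.sum_add_distrib]
        apply Finset.sum_congr rfl
        intro l _; ring
      rw [this, haA, hbA w hw]; norm_num
    · intro D hD _; exact hsumle w hw D hD
    · intro D hD _ h; exact hua w hw D hD (habs2 D _ h)
  have flB : ∀ w ∈ W, ∃ r, Flat (M.fn B εB) ((1/2:ℝ) • (M.vec S₀ a - M.vec w.1 w.2)) r := by
    intro w hw
    rw [(big w hw).1, (big w hw).2, M.half_vec_sub]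
    apply M.flat_vec' hF hBF hBmax (hBS' w) hεB
    · have : ∑ l ∈ B, εB l * ((a l - w.2 l) / 2)
          = (∑ l ∈ B, εB l * a l) / 2 - (∑ l ∈ B, εB l * w.2 l) / 2 := by
        rw [Finset.sum_div, Finset.sum_div, ← Finset.sum_sub_distrib]
        apply Finset.sum_congr rfl
        intro l _; ring
      rw [this, haB, hbB w hw]; norm_num
    · intro D hD _; exact hsumle' w hw D hD
    · intro D hD _ h; exact hub w hw D hD (habs2 D _ h)
  obtain ⟨w₁, hw₁⟩ := hW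
  have hle1 : ∀ z, M.fn A εA z ≤ ‖z‖ := by
    obtain ⟨r, hr⟩ := flA w₁ hw₁
    exact fun z => hr.le_norm z
  have hx₀ : ‖M.vec S₀ a‖ = 1 := le_antisymm hx₀le (by rw [← pA]; exact hle1 _)
  apply key_lemma hv hTa hTb hx₀ pA pB ((fun w => M.vec w.1 w.2) '' W) 
    ⟨_, w₁, hw₁, rfl⟩
  · rintro _ ⟨w, hw, rfl⟩
    refine ⟨le_antisymm ?_ ?_, qA w hw, qB w hw⟩
    · exact M.norm_vec_le hF (fun D hD _ => hble w hw D hD)
    · have := hle1 (M.vec w.1 w.2)
      rw [qA w hw] at this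
      exact this
  · rintro _ ⟨w, hw, rfl⟩; exact flA w hw
  · rintro _ ⟨w, hw, rfl⟩; exact flB w hw
  · intro z hz
    apply hext
    intro w hw
    exact hz _ ⟨w, hw, rfl⟩

end Model

end Pool.Agent.Helper194.MUP
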