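import Pool.Agent.Helper194.A7

namespace Pool.Agent.Helper194.MUP

open Filter Topology Set

variable {ι : Type*} {F : Set (Finset ι)} {X Y : Type*} [NormedAddCommGroup X] [NormedSpace ℝ X]
  [NormedAddCommGroup Y] [NormedSpace ℝ Y]

theorem sum_two {D : Finset ι} {a b : ι → ℝ} (ha : ∑ l ∈ D, |a l| ≤ 1) (hb : ∑ l ∈ D, |b l| ≤ 1)
    (hab : ∑ l ∈ D, |a l + b l| = 2) :
    ∑ l ∈ D, |a l| = 1 ∧ ∑ l ∈ D, |b l| = 1 ∧ ∀ l ∈ D, |a l + b l| = |a l| + |b l| := by
  have h1 : ∀ l ∈ D, |a l + b l| ≤ |a l| + |b l| := fun l _ => abs_add_le _ _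
  have h2 := Finset.sum_le_sum h1
  rw [Finset.sum_add_distrib] at h2
  refine ⟨by linarith, by linarith, ?_⟩
  apply (Finset.sum_eq_sum_iff_of_le h1).mp
  rw [Finset.sum_add_distrib]
  linarith

theorem sum_two' {D : Finset ι} {a b : ι → ℝ} (ha : ∑ l ∈ D, |a l| ≤ 1) (hb : ∑ l ∈ D, |b l| ≤ 1)
    (hab : ∑ l ∈ D, |a l - b l| = 2) :
    ∑ l ∈ D, |a l| = 1 ∧ ∑ l ∈ D, |b l| = 1 ∧ ∀ l ∈ D, |a l - b l| = |a l| + |b l| := by
  have h := sum_two (a := a) (b := fun l => -b l) ha (by simpa using hb)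
    (by simpa [sub_eq_add_neg] using hab)
  simpa [sub_eq_add_neg] using h

/-- an independent set meets a member of the family in at most one point. -/
theorem inter_card_le_one [DecidableEq ι] (hF : FamOK F) {P D : Finset ι}
    (hP : ∀ u ∈ P, ∀ w ∈ P, u ≠ w → ({u, w} : Finset ι) ∉ F) (hD : D ∈ F) :
    (D ∩ P).card ≤ 1 := by
  rw [Finset.card_le_one]
  intro u hu w hw
  by_contra hne
  rw [Finset.mem_inter] at hu hw
  apply hP u hu.2 w hw.2 hne
  apply hF.her D hD
  intro x hx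
  rw [Finset.mem_insert, Finset.mem_singleton] at hx
  rcases hx with rfl | rfl
  · exact hu.1
  · exact hw.1

theorem arith1 {N m n1 n2 : ℕ} (hN : 0 < N) (hm : 0 < m) (h1 : n1 + 1 ≤ N) (h2 : n2 ≤ m) :
    (n1:ℝ) / N + (n2:ℝ) / (N * m) ≤ 1 := by
  have hN' : (0:ℝ) < N := by exact_mod_cast hN
  have hm' : (0:ℝ) < m := by exact_mod_cast hm
  have h1' : (n1:ℝ) + 1 ≤ N := by exact_mod_cast h1
  have h2' : (n2:ℝ) ≤ m := by exact_mod_cast h2
  have e : (n1:ℝ) / N + (n2:ℝ) / (N * m) = (n1 * m + n2) / (N * m) := by field_simp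
  rw [e, div_le_one (by positivity)]
  nlinarith

theorem arith2 {N m n1 n2 : ℕ} (hN : 0 < N) (hm : 0 < m) (h1 : n1 + 1 ≤ N) (h2 : n2 ≤ m)
    (h : (n1:ℝ) / N + (n2:ℝ) / (N * m) = 1) : n1 + 1 = N ∧ n2 = m := by
  have hN' : (0:ℝ) < N := by exact_mod_cast hN
  have hm' : (0:ℝ) < m := by exact_mod_cast hm
  have e : (n1:ℝ) / N + (n2:ℝ) / (N * m) = (n1 * m + n2) / (N * m) := by field_simp
  rw [e, div_eq_one_iff_eq (by positivity)] at h
  have h' : n1 * m + n2 = N * m := by exact_mod_cast h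
  have h3 : (n1 + 1) * m ≤ N * m := Nat.mul_le_mul_right m h1
  have h4 : n2 = m := by nlinarith
  have h5 : (n1 + 1) * m = N * m := by nlinarith
  exact ⟨Nat.eq_of_mul_eq_mul_right hm h5, h4⟩

/-- the extreme family built on an independent set `Q` with signs `β`. -/
def Wset [DecidableEq ι] (F : Set (Finset ι)) (Q : Finset ι) (β : ι → ℝ) :
    Set (Finset ι × (ι → ℝ)) :=
  {w | ∃ K : Finset ι, K.card ≤ 1 ∧ (∀ k ∈ K, k ∉ Q ∧ ∀ q ∈ Q, ({q, k} : Finset ι) ∉ F) ∧
    w = (Q ∪ K, fun l => if l ∈ Q then β l else if l ∈ K then 1 else 0)}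

section Wset

variable [DecidableEq ι] {Q : Finset ι} {β : ι → ℝ}

theorem Wset.nonempty : (Wset F Q β).Nonempty := ⟨_, ∅, by simp, by simp, rfl⟩

theorem Wset.abs (hβ : ∀ q ∈ Q, |β q| = 1) {w : Finset ι × (ι → ℝ)} (hw : w ∈ Wset F Q β)
    (l : ι) : |w.2 l| = if l ∈ w.1 then 1 else 0 := by
  obtain ⟨K, h1, h2, rfl⟩ := hw
  by_cases hl : l ∈ Q
  · simp [hl, hβ l hl]
  · by_cases hlK : l ∈ K <;> simp [hl, hlK]

theorem Wset.zero (hβ : ∀ q ∈ Q, |β q| = 1) {w : Finset ι × (ι → ℝ)} (hw : w ∈ Wset F Q β)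
    (l : ι) (hl : l ∉ w.1) : w.2 l = 0 := by
  have := Wset.abs hβ hw l
  rw [if_neg hl, abs_eq_zero] at this
  exact this

theorem Wset.apply_mem {w : Finset ι × (ι → ℝ)} (hw : w ∈ Wset F Q β) {l : ι} (hl : l ∈ Q) :
    w.2 l = β l := by
  obtain ⟨K, h1, h2, rfl⟩ := hw
  simp [hl]

theorem Wset.sum_le (hF : FamOK F) (hβ : ∀ q ∈ Q, |β q| = 1)
    (hQ : ∀ u ∈ Q, ∀ w ∈ Q, u ≠ w → ({u, w} : Finset ι) ∉ F)
    {w : Finset ι × (ι → ℝ)} (hw : w ∈ Wset F Q β) {D : Finset ι} (hD : D ∈ F) :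
    ∑ l ∈ D, |w.2 l| ≤ 1 := by
  rw [Finset.sum_congr rfl (fun l _ => Wset.abs hβ hw l), Finset.sum_ite_mem, Finset.sum_const,
    nsmul_eq_mul, mul_one]
  obtain ⟨K, h1, h2, rfl⟩ := hw
  have : (D ∩ (Q ∪ K)).card ≤ 1 := by
    apply inter_card_le_one hF _ hD
    intro u hu w hw huw
    rw [Finset.mem_union] at hu hw
    rcases hu with hu | hu <;> rcases hw with hw | hw
    · exact hQ u hu w hw huw
    · exact (h2 w hw).2 u hu
    · rw [Finset.pair_comm]; exact (h2 u hu).2 w hw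
    · exact absurd (Finset.card_le_one.mp h1 u hu w hw) huw
  exact_mod_cast this

theorem Wset.sum_eq (hF : FamOK F) {w : Finset ι × (ι → ℝ)} (hw : w ∈ Wset F Q β)
    {A : Finset ι} (hA : A ∈ F) {i : ι} (hi : i ∈ A) (hiQ : i ∈ Q)
    (hAQ : ∀ l ∈ A, l ≠ i → l ∉ Q) (ε : ι → ℝ) : ∑ l ∈ A, ε l * w.2 l = ε i * β i := by
  rw [Finset.sum_eq_single_of_mem i hi]
  · rw [Wset.apply_mem hw hiQ]
  · intro l hl hli
    obtain ⟨K, h1, h2, rfl⟩ := hw
    have hlQ := hAQ l hl hli
    have hlK : l ∉ K := by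
      intro h
      apply (h2 l h).2 i hiQ
      apply hF.her A hA
      intro x hx
      rw [Finset.mem_insert, Finset.mem_singleton] at hx
      rcases hx with rfl | rfl
      · exact hi
      · exact hl
    simp [hlQ, hlK]

end Wset

namespace Model

variable (M : Model F X)

theorem ext_total [DecidableEq ι] (hF : FamOK F) {Q : Finset ι} {β : ι → ℝ}
    (hβ : ∀ q ∈ Q, |β q| = 1) {z : X}
    (hz : ∀ w ∈ Wset F Q β, ∃ δ > 0, ∀ t : ℝ, |t| < δ → ‖M.vec w.1 w.2 + t • z‖ = 1) : z = 0 := by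
  apply M.total
  have key : ∀ w ∈ Wset F Q β, ∀ l ∈ w.1, |M.c l (M.vec w.1 w.2)| = 1 := by
    intro w hw l hl
    rw [M.c_vec_mem hl, Wset.abs hβ hw l, if_pos hl]
  have w0 : ((Q ∪ ∅, fun l => if l ∈ Q then β l else if l ∈ (∅ : Finset ι) then 1 else 0) :
    Finset ι × (ι → ℝ)) ∈ Wset F Q β := ⟨∅, by simp, by simp, rfl⟩
  have hzQ : ∀ q ∈ Q, M.c q z = 0 := by
    intro q hq
    exact M.ext_coord1 hF (key _ w0 q (by simp [hq])) (hz _ w0)
  intro k
  by_cases hk : k ∈ Q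
  · exact hzQ k hk
  by_cases h1 : ∃ q ∈ Q, ({q, k} : Finset ι) ∈ F
  · obtain ⟨q, hq, hqk⟩ := h1
    refine M.ext_coord2 (i := q) ?_ hqk (key _ w0 q (by simp [hq])) (hzQ q hq) ?_ (hz _ w0)
    · rintro rfl; exact hk hq
    · exact M.c_vec_notMem (by simp [hk])
  · have wk : ((Q ∪ {k}, fun l => if l ∈ Q then β l else if l ∈ ({k} : Finset ι) then 1 else 0) :
      Finset ι × (ι → ℝ)) ∈ Wset F Q β := by
      refine ⟨{k}, by simp, ?_, rfl⟩
      intro k' hk'
      rw [Finset.mem_singleton] at hk'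
      subst hk'
      exact ⟨hk, fun q hq h => h1 ⟨q, hq, h⟩⟩
    exact M.ext_coord1 hF (key _ wk k (by simp)) (hz _ wk)

set_option maxHeartbeats 1000000 in
/-- Linking step, case 2. -/
theorem link2 (hF : FamOK F) {v : X → Y} (hv : SphIso v) {A B : Finset ι} [DecidableEq ι]
    (hAF : A ∈ F) (hBF : B ∈ F) (hAmax : ∀ C ∈ F, A ⊆ C → C = A) (hBmax : ∀ C ∈ F, B ⊆ C → C = B)
    {i j : ι} (hi : i ∈ A) (hj : j ∈ B) (hij : i ≠ j) (hnij : ({i, j} : Finset ι) ∉ F)
    (hsub : A.erase i ⊆ B)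
    {εA εB : ι → ℝ} (hεA : ∀ i, εA i = 1 ∨ εA i = -1) (hεB : ∀ i, εB i = 1 ∨ εB i = -1)
    (hεAB : ∀ l ∈ A.erase i, εA l = εB l)
    {Ta Tb : X ≃L[ℝ] Y} (hTa : ∀ z, ‖z‖ = 1 → M.fn A εA z = 1 → v z = Ta z)
    (hTb : ∀ z, ‖z‖ = 1 → M.fn B εB z = 1 → v z = Tb z) : Ta = Tb := by
  classical
  have hpair : ∀ D ∈ F, i ∈ D → j ∉ D := by
    intro D hD h1 h2
    apply hnij
    apply hF.her D hD
    intro x hx
    rw [Finset.mem_insert, Finset.mem_singleton] at hx
    rcases hx with rfl | rfl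
    · exact h1
    · exact h2
  have hjA : j ∉ A := hpair A hAF hi
  have hiB : i ∉ B := fun h => hpair B hBF h hj
  have hAn : 0 < A.card := Finset.card_pos.mpr ⟨i, hi⟩
  have hBn : 0 < (B \ A).card := Finset.card_pos.mpr ⟨j, Finset.mem_sdiff.mpr ⟨hj, hjA⟩⟩
  have hN : (0:ℝ) < A.card := by exact_mod_cast hAn
  have hm : (0:ℝ) < (B \ A).card := by exact_mod_cast hBn
  set N : ℝ := (A.card : ℝ) with hNdef
  set m : ℝ := ((B \ A).card : ℝ) with hmdef
  have sqA : ∀ l, εA l * εA l = 1 := by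
    intro l; rcases hεA l with h | h <;> rw [h] <;> norm_num
  have sqB : ∀ l, εB l * εB l = 1 := by
    intro l; rcases hεB l with h | h <;> rw [h] <;> norm_num
  have absA : ∀ l, |εA l| = 1 := by
    intro l; rcases hεA l with h | h <;> rw [h] <;> norm_num
  have absB : ∀ l, |εB l| = 1 := by
    intro l; rcases hεB l with h | h <;> rw [h] <;> norm_num
  obtain ⟨a, ha⟩ : ∃ a : ι → ℝ, a = fun l => if l ∈ A then εA l / N else
      if l ∈ B then εB l / (N * m) else 0 := ⟨_, rfl⟩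
  have aA : ∀ l ∈ A, a l = εA l / N := by intro l hl; rw [ha]; simp [hl]
  have aB : ∀ l ∈ B \ A, a l = εB l / (N * m) := by
    intro l hl; rw [Finset.mem_sdiff] at hl; rw [ha]; simp [hl.1, hl.2]
  have absa : ∀ l, |a l| = (if l ∈ A then 1 / N else 0) + (if l ∈ B \ A then 1 / (N * m) else 0) := by
    intro l
    by_cases h1 : l ∈ A
    · rw [aA l h1, abs_div, absA, abs_of_pos hN]; simp [h1]
    · by_cases h2 : l ∈ B
      · have h3 : l ∈ B \ A := Finset.mem_sdiff.mpr ⟨h2, h1⟩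
        rw [aB l h3, abs_div, absB, abs_of_pos (mul_pos hN hm)]; simp [h1, h3]
      · have h3 : l ∉ B \ A := fun h => h2 (Finset.mem_sdiff.mp h).1
        rw [ha]; simp [h1, h2]
  have suma : ∀ D : Finset ι, ∑ l ∈ D, |a l| =
      ((D ∩ A).card : ℝ) / N + ((D ∩ (B \ A)).card : ℝ) / (N * m) := by
    intro D
    rw [Finset.sum_congr rfl (fun l _ => absa l), Finset.sum_add_distrib, Finset.sum_ite_mem,
      Finset.sum_ite_mem, Finset.sum_const, Finset.sum_const, nsmul_eq_mul, nsmul_eq_mul,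
      mul_one_div, mul_one_div]
  have lt_of_not : ∀ D : Finset ι, ¬ A ⊆ D → (D ∩ A).card + 1 ≤ A.card := by
    intro D h
    apply Finset.card_lt_card
    refine ⟨Finset.inter_subset_right, fun h2 => h (h2.trans Finset.inter_subset_left)⟩
  have hale : ∀ D ∈ F, ∑ l ∈ D, |a l| ≤ 1 := by
    intro D hD
    rw [suma D]
    by_cases h : A ⊆ D
    · have := hAmax D hD h
      rw [this, Finset.inter_self]
      have h2 : A ∩ (B \ A) = ∅ := by
        ext x; simp only [Finset.mem_inter, Finset.mem_sdiff, Finset.notMem_empty, iff_false]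
        tauto
      rw [h2, Finset.card_empty, ← hNdef, div_self hN.ne']
      simp
    · exact arith1 hAn hBn (lt_of_not D h) (Finset.card_le_card Finset.inter_subset_right)
  have haeq : ∀ D ∈ F, ∑ l ∈ D, |a l| = 1 → D = A ∨ D = B := by
    intro D hD h1
    rw [suma D] at h1
    by_cases h : A ⊆ D
    · left; exact hAmax D hD h
    · right
      obtain ⟨h2, h3⟩ := arith2 hAn hBn (lt_of_not D h)
        (Finset.card_le_card Finset.inter_subset_right) h1
      have h4 : B \ A ⊆ D := by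
        have : D ∩ (B \ A) = B \ A := Finset.eq_of_subset_of_card_le Finset.inter_subset_right h3.ge
        rw [← this]; exact Finset.inter_subset_left
      have hjD : j ∈ D := h4 (Finset.mem_sdiff.mpr ⟨hj, hjA⟩)
      have hiD : i ∉ D := fun h => hpair D hD h hjD
      have h5 : D ∩ A ⊆ A.erase i := by
        intro x hx
        rw [Finset.mem_inter] at hx
        rw [Finset.mem_erase]
        exact ⟨fun h => hiD (h ▸ hx.1), hx.2⟩
      have h6 : D ∩ A = A.erase i := by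
        apply Finset.eq_of_subset_of_card_le h5
        rw [Finset.card_erase_of_mem hi]
        omega
      apply hBmax D hD
      intro x hx
      by_cases hxA : x ∈ A
      · have : x ∈ A.erase i := by
          rw [Finset.mem_erase]
          exact ⟨fun h => hiB (h ▸ hx), hxA⟩
        rw [← h6] at this
        exact (Finset.mem_inter.mp this).1
      · exact h4 (Finset.mem_sdiff.mpr ⟨hx, hxA⟩)
  have haA : ∑ l ∈ A, εA l * a l = 1 := by
    have : ∀ l ∈ A, εA l * a l = 1 / N := by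
      intro l hl; rw [aA l hl, ← mul_div_assoc, sqA]
    rw [Finset.sum_congr rfl this, Finset.sum_const, nsmul_eq_mul, ← hNdef]
    field_simp
  have haB : ∑ l ∈ B, εB l * a l = 1 := by
    have h1 : ∀ l ∈ B, εB l * a l = |a l| := by
      intro l hl
      by_cases hlA : l ∈ A
      · have hle : l ∈ A.erase i := by
          rw [Finset.mem_erase]
          exact ⟨fun h => hiB (h ▸ hl), hlA⟩
        rw [aA l hlA, ← hεAB l hle, ← mul_div_assoc, sqA, abs_div, absA, abs_of_pos hN]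
      · rw [aB l (Finset.mem_sdiff.mpr ⟨hl, hlA⟩), ← mul_div_assoc, sqB, abs_div, absB,
          abs_of_pos (mul_pos hN hm)]
    rw [Finset.sum_congr rfl h1, suma B]
    have h2 : B ∩ A = A.erase i := by
      ext x
      rw [Finset.mem_inter, Finset.mem_erase]
      constructor
      · rintro ⟨h3, h4⟩; exact ⟨fun h => hiB (h ▸ h3), h4⟩
      · rintro ⟨h3, h4⟩; exact ⟨hsub (Finset.mem_erase.mpr ⟨h3, h4⟩), h4⟩
    have h3 : B ∩ (B \ A) = B \ A := Finset.inter_eq_right.mpr Finset.sdiff_subset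
    rw [h2, h3, Finset.card_erase_of_mem hi, ← hmdef, Nat.cast_sub (by omega), ← hNdef]
    field_simp
    ring
  -- the extreme family
  obtain ⟨β, hβi, hβj⟩ : ∃ β : ι → ℝ, β i = εA i ∧ β j = -εB j :=
    ⟨fun l => if l = i then εA l else -εB l, by simp, by simp [hij.symm]⟩
  have hβ : ∀ q ∈ ({i, j} : Finset ι), |β q| = 1 := by
    intro q hq
    rw [Finset.mem_insert, Finset.mem_singleton] at hq
    rcases hq with rfl | rfl
    · rw [hβi]; exact absA _
    · rw [hβj, abs_neg]; exact absB _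
  have hQ : ∀ u ∈ ({i, j} : Finset ι), ∀ w ∈ ({i, j} : Finset ι), u ≠ w →
      ({u, w} : Finset ι) ∉ F := by
    intro u hu w hw huw
    rw [Finset.mem_insert, Finset.mem_singleton] at hu hw
    rcases hu with rfl | rfl <;> rcases hw with rfl | rfl
    · exact absurd rfl huw
    · exact hnij
    · rw [Finset.pair_comm]; exact hnij
    · exact absurd rfl huw
  have hAQ : ∀ l ∈ A, l ≠ i → l ∉ ({i, j} : Finset ι) := by
    intro l hl hli h
    rw [Finset.mem_insert, Finset.mem_singleton] at h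
    rcases h with h | h
    · exact hli h
    · exact hjA (h ▸ hl)
  have hBQ : ∀ l ∈ B, l ≠ j → l ∉ ({i, j} : Finset ι) := by
    intro l hl hlj h
    rw [Finset.mem_insert, Finset.mem_singleton] at h
    rcases h with h | h
    · exact hiB (h ▸ hl)
    · exact hlj h
  refine M.link hF hv (S₀ := A ∪ B) hAF hBF hAmax hBmax hεA hεB hTa hTb (a := a) ?_
    Finset.subset_union_left Finset.subset_union_right haA haB hale (Wset F {i, j} β)
    Wset.nonempty (fun w hw => Wset.zero hβ hw)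
    (fun w hw => by rw [Wset.sum_eq hF hw hAF hi (by simp) hAQ, hβi, sqA])
    (fun w hw => by rw [Wset.sum_eq hF hw hBF hj (by simp) hBQ, hβj, mul_neg, sqB])
    (fun w hw D hD => Wset.sum_le hF hβ hQ hw hD) ?_ ?_ ?_
  · intro l hl
    rw [Finset.mem_union, not_or] at hl
    rw [ha]; simp [hl.1, hl.2]
  · intro w hw D hD hsum
    obtain ⟨s1, s2, s3⟩ := sum_two (hale D hD) (Wset.sum_le hF hβ hQ hw hD) hsum
    rcases haeq D hD s1 with h | h
    · exact h
    · exfalso
      have h3 := s3 j (h ▸ hj)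
      rw [aB j (Finset.mem_sdiff.mpr ⟨hj, hjA⟩), Wset.apply_mem hw (by simp), hβj] at h3
      have hpos : 0 < 1 / (N * m) := by positivity
      rw [abs_neg, absB, abs_div, absB, abs_of_pos (mul_pos hN hm)] at h3
      rcases hεB j with h4 | h4
      · rw [h4] at h3
        rcases abs_cases (1 / (N * m) + -(1:ℝ)) with ⟨h5, _⟩ | ⟨h5, _⟩ <;> linarith
      · rw [h4] at h3
        rcases abs_cases (-1 / (N * m) + -(-1:ℝ)) with ⟨h5, _⟩ | ⟨h5, _⟩ <;>
          rw [h5, neg_div] at h3 <;> linarith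
  · intro w hw D hD hsum
    obtain ⟨s1, s2, s3⟩ := sum_two' (hale D hD) (Wset.sum_le hF hβ hQ hw hD) hsum
    rcases haeq D hD s1 with h | h
    · exfalso
      have h3 := s3 i (h ▸ hi)
      rw [aA i hi, Wset.apply_mem hw (by simp), hβi] at h3
      have hpos : 0 < 1 / N := by positivity
      rw [absA, abs_div, absA, abs_of_pos hN] at h3
      rcases hεA i with h4 | h4
      · rw [h4] at h3
        rcases abs_cases (1 / N - (1:ℝ)) with ⟨h5, _⟩ | ⟨h5, _⟩ <;> linarith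
      · rw [h4] at h3
        rcases abs_cases (-1 / N - (-1:ℝ)) with ⟨h5, _⟩ | ⟨h5, _⟩ <;>
          rw [h5, neg_div] at h3 <;> linarith
    · exact h
  · intro z hz
    exact M.ext_total hF hβ hz

/-- Linking step, case 1. -/
theorem link1 (hF : FamOK F) {v : X → Y} (hv : SphIso v) {A : Finset ι} [DecidableEq ι]
    (hAF : A ∈ F) (hAmax : ∀ C ∈ F, A ⊆ C → C = A)
    {i : ι} (hi : i ∈ A) (hne : (A.erase i).Nonempty)
    (hcase : ∀ k, k ≠ i → ({i, k} : Finset ι) ∉ F → insert k (A.erase i) ∉ F)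
    {εA εB : ι → ℝ} (hεA : ∀ i, εA i = 1 ∨ εA i = -1) (hεB : ∀ i, εB i = 1 ∨ εB i = -1)
    (hεAB : ∀ l ∈ A.erase i, εA l = εB l) (hεi : εB i = -εA i)
    {Ta Tb : X ≃L[ℝ] Y} (hTa : ∀ z, ‖z‖ = 1 → M.fn A εA z = 1 → v z = Ta z)
    (hTb : ∀ z, ‖z‖ = 1 → M.fn A εB z = 1 → v z = Tb z) : Ta = Tb := by
  classical
  have hAn : 0 < (A.erase i).card := Finset.card_pos.mpr hne
  have hN : (0:ℝ) < (A.erase i).card := by exact_mod_cast hAn
  set n : ℝ := ((A.erase i).card : ℝ) with hndef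
  have sqA : ∀ l, εA l * εA l = 1 := by
    intro l; rcases hεA l with h | h <;> rw [h] <;> norm_num
  have absA : ∀ l, |εA l| = 1 := by
    intro l; rcases hεA l with h | h <;> rw [h] <;> norm_num
  obtain ⟨a, ha⟩ : ∃ a : ι → ℝ, a = fun l => if l ∈ A.erase i then εA l / n else 0 := ⟨_, rfl⟩
  have aA : ∀ l ∈ A.erase i, a l = εA l / n := by intro l hl; rw [ha]; simp only [hl, if_true]
  have a0 : ∀ l, l ∉ A.erase i → a l = 0 := by intro l hl; rw [ha]; simp only [hl, if_false]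
  have absa : ∀ l, |a l| = if l ∈ A.erase i then 1 / n else 0 := by
    intro l
    by_cases h1 : l ∈ A.erase i
    · rw [aA l h1, abs_div, absA, abs_of_pos hN, if_pos h1]
    · rw [a0 l h1, abs_zero, if_neg h1]
  have suma : ∀ D : Finset ι, ∑ l ∈ D, |a l| = ((D ∩ A.erase i).card : ℝ) / n := by
    intro D
    rw [Finset.sum_congr rfl (fun l _ => absa l), Finset.sum_ite_mem, Finset.sum_const,
      nsmul_eq_mul, mul_one_div]
  have hale : ∀ D ∈ F, ∑ l ∈ D, |a l| ≤ 1 := by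
    intro D _
    rw [suma D, div_le_one hN, hndef]
    exact_mod_cast Finset.card_le_card Finset.inter_subset_right
  have haeq : ∀ D : Finset ι, ∑ l ∈ D, |a l| = 1 → A.erase i ⊆ D := by
    intro D h1
    rw [suma D, div_eq_one_iff_eq hN.ne', hndef] at h1
    have : D ∩ A.erase i = A.erase i :=
      Finset.eq_of_subset_of_card_le Finset.inter_subset_right (by exact_mod_cast h1.ge)
    rw [← this]; exact Finset.inter_subset_left
  have haA : ∑ l ∈ A, εA l * a l = 1 := by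
    rw [← Finset.add_sum_erase A _ hi, a0 i (Finset.notMem_erase i A), mul_zero, zero_add]
    have : ∀ l ∈ A.erase i, εA l * a l = 1 / n := by
      intro l hl; rw [aA l hl, ← mul_div_assoc, sqA]
    rw [Finset.sum_congr rfl this, Finset.sum_const, nsmul_eq_mul, ← hndef]
    field_simp
  have haB : ∑ l ∈ A, εB l * a l = 1 := by
    rw [← haA]
    apply Finset.sum_congr rfl
    intro l hl
    by_cases h : l = i
    · rw [h, a0 i (Finset.notMem_erase i A), mul_zero, mul_zero]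
    · rw [hεAB l (Finset.mem_erase.mpr ⟨h, hl⟩)]
  have hβ : ∀ q ∈ ({i} : Finset ι), |εA q| = 1 := fun q _ => absA q
  have hQ : ∀ u ∈ ({i} : Finset ι), ∀ w ∈ ({i} : Finset ι), u ≠ w →
      ({u, w} : Finset ι) ∉ F := by
    intro u hu w hw huw
    rw [Finset.mem_singleton] at hu hw
    rw [hu, hw] at huw
    exact absurd rfl huw
  have hAQ : ∀ l ∈ A, l ≠ i → l ∉ ({i} : Finset ι) := by
    intro l _ hli h
    rw [Finset.mem_singleton] at h
    exact hli h
  have huniq : ∀ w ∈ Wset F {i} εA, ∀ D ∈ F, ∑ l ∈ D, |a l| = 1 → ∑ l ∈ D, |w.2 l| = 1 →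
      D = A := by
    intro w hw D hD s1 s2
    have h1 := haeq D s1
    have h2 : ∃ l ∈ D, w.2 l ≠ 0 := by
      by_contra hcon
      push Not at hcon
      rw [Finset.sum_eq_zero (fun l hl => by rw [hcon l hl, abs_zero])] at s2
      norm_num at s2
    obtain ⟨l, hlD, hl0⟩ := h2
    have hl1 : l ∈ w.1 := by
      by_contra h
      exact hl0 (Wset.zero hβ hw l h)
    obtain ⟨K, k1, k2, rfl⟩ := hw
    rw [Finset.mem_union, Finset.mem_singleton] at hl1
    rcases hl1 with rfl | hlK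
    · apply hAmax D hD
      intro x hx
      by_cases hxl : x = l
      · rw [hxl]; exact hlD
      · exact h1 (Finset.mem_erase.mpr ⟨hxl, hx⟩)
    · exfalso
      obtain ⟨k3, k4⟩ := k2 l hlK
      rw [Finset.mem_singleton] at k3
      apply hcase l k3 (k4 i (Finset.mem_singleton_self i))
      apply hF.her D hD
      intro x hx
      rw [Finset.mem_insert] at hx
      rcases hx with rfl | hx
      · exact hlD
      · exact h1 hx
  refine M.link hF hv (S₀ := A) hAF hAF hAmax hAmax hεA hεB hTa hTb (a := a) ?_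
    (Finset.Subset.refl A) (Finset.Subset.refl A) haA haB hale (Wset F {i} εA)
    Wset.nonempty (fun w hw => Wset.zero hβ hw)
    (fun w hw => by rw [Wset.sum_eq hF hw hAF hi (by simp) hAQ, sqA])
    (fun w hw => by rw [Wset.sum_eq hF hw hAF hi (by simp) hAQ, hεi, neg_mul, sqA])
    (fun w hw D hD => Wset.sum_le hF hβ hQ hw hD) ?_ ?_ ?_
  · intro l hl
    exact a0 l (fun h => hl (Finset.mem_of_mem_erase h))
  · intro w hw D hD hsum
    obtain ⟨s1, s2, s3⟩ := sum_two (hale D hD) (Wset.sum_le hF hβ hQ hw hD) hsum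
    exact huniq w hw D hD s1 s2
  · intro w hw D hD hsum
    obtain ⟨s1, s2, s3⟩ := sum_two' (hale D hD) (Wset.sum_le hF hβ hQ hw hD) hsum
    exact huniq w hw D hD s1 s2
  · intro z hz
    exact M.ext_total hF hβ hz

end Model

end Pool.Agent.Helper194.MUP
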