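import Pool.Agent.Helper194.A8

namespace Pool.Agent.Helper194.MUP

open Filter Topology Set

variable {ι : Type*} {F : Set (Finset ι)} {X Y : Type*} [NormedAddCommGroup X] [NormedSpace ℝ X]
  [NormedAddCommGroup Y] [NormedSpace ℝ Y]

namespace Model

variable (M : Model F X)

/-- changing one sign does not change the linear map. -/
theorem flip_one [Nontrivial ι] [DecidableEq ι] (hF : FamOK F) {v : X → Y} (hv : SphIso v)
    {A : Finset ι} (hAF : A ∈ F) (hAmax : ∀ C ∈ F, A ⊆ C → C = A) {i : ι} (hi : i ∈ A)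
    {εA εB : ι → ℝ} (hεA : ∀ i, εA i = 1 ∨ εA i = -1) (hεB : ∀ i, εB i = 1 ∨ εB i = -1)
    (hεAB : ∀ l, l ≠ i → εA l = εB l) (hεi : εB i = -εA i)
    {Ta Tb : X ≃L[ℝ] Y} (hTa : ∀ z, ‖z‖ = 1 → M.fn A εA z = 1 → v z = Ta z)
    (hTb : ∀ z, ‖z‖ = 1 → M.fn A εB z = 1 → v z = Tb z) : Ta = Tb := by
  by_cases hcase : ∀ k, k ≠ i → ({i, k} : Finset ι) ∉ F → insert k (A.erase i) ∉ F
  · have hne : (A.erase i).Nonempty := by
      rw [Finset.nonempty_iff_ne_empty]
      intro hempty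
      obtain ⟨k, hk⟩ := exists_ne i
      have h1 : ({i, k} : Finset ι) ∉ F := by
        intro h
        have h2 : A ⊆ {i, k} := by
          intro x hx
          by_cases hxi : x = i
          · simp [hxi]
          · exfalso
            have : x ∈ A.erase i := Finset.mem_erase.mpr ⟨hxi, hx⟩
            rw [hempty] at this
            exact absurd this (Finset.notMem_empty x)
        have h3 := hAmax _ h h2
        have h4 : k ∈ A.erase i := by
          rw [Finset.mem_erase, ← h3]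
          exact ⟨hk, by simp⟩
        rw [hempty] at h4
        exact absurd h4 (Finset.notMem_empty k)
      apply hcase k hk h1
      rw [hempty]
      exact hF.single k
    exact M.link1 hF hv hAF hAmax hi hne hcase hεA hεB
      (fun l hl => hεAB l (Finset.ne_of_mem_erase hl)) hεi hTa hTb
  · push Not at hcase
    obtain ⟨j, hji, hnij, hjF⟩ := hcase
    obtain ⟨B, hBF, hsub, hBmax⟩ := hF.exists_max _ hjF
    have hjB : j ∈ B := hsub (Finset.mem_insert_self _ _)
    have hsub' : A.erase i ⊆ B := (Finset.subset_insert _ _).trans hsub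
    obtain ⟨TB, hTB⟩ := M.exists_T hF hv hBF ⟨j, hjB⟩ hBmax hεA
    have h1 : Ta = TB := M.link2 hF hv hAF hBF hAmax hBmax hi hjB hji.symm hnij hsub' hεA hεA
      (fun _ _ => rfl) hTa hTB
    have h2 : Tb = TB := M.link2 hF hv hAF hBF hAmax hBmax hi hjB hji.symm hnij hsub' hεB hεA
      (fun l hl => (hεAB l (Finset.ne_of_mem_erase hl)).symm) hTb hTB
    rw [h1, h2]

theorem flip_many [Nontrivial ι] [DecidableEq ι] (hF : FamOK F) {v : X → Y} (hv : SphIso v)
    {A : Finset ι} (hAF : A ∈ F) (hAne : A.Nonempty) (hAmax : ∀ C ∈ F, A ⊆ C → C = A)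
    {ε : ι → ℝ} (hε : ∀ i, ε i = 1 ∨ ε i = -1)
    {Ta : X ≃L[ℝ] Y} (hTa : ∀ z, ‖z‖ = 1 → M.fn A ε z = 1 → v z = Ta z) (s : Finset ι) :
    s ⊆ A → ∀ Tb : X ≃L[ℝ] Y,
      (∀ z, ‖z‖ = 1 → M.fn A (fun l => if l ∈ s then -ε l else ε l) z = 1 → v z = Tb z) →
      Ta = Tb := by
  have hsgn : ∀ s : Finset ι, ∀ l, (fun l => if l ∈ s then -ε l else ε l) l = 1 ∨
      (fun l => if l ∈ s then -ε l else ε l) l = -1 := by
    intro s l
    by_cases h : l ∈ s
    · rcases hε l with h' | h' <;> simp [h, h']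
    · rcases hε l with h' | h' <;> simp [h, h']
  -- uniqueness for the unflipped sign
  induction s using Finset.induction_on with
  | empty =>
    intro _ Tb hTb
    -- compare with one extra double flip through a fixed index
    obtain ⟨i, hi⟩ := hAne
    obtain ⟨Tc, hTc⟩ := M.exists_T hF hv hAF ⟨i, hi⟩ hAmax
      (ε := fun l => if l ∈ ({i} : Finset ι) then -ε l else ε l) (hsgn {i})
    have h1 : Ta = Tc := by
      refine M.flip_one hF hv hAF hAmax hi hε (hsgn {i}) ?_ ?_ hTa hTc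
      · intro l hl; simp [hl]
      · simp
    have h2 : Tb = Tc := by
      refine M.flip_one hF hv hAF hAmax hi (hsgn ∅) (hsgn {i}) ?_ ?_ hTb hTc
      · intro l hl; simp [hl]
      · simp
    rw [h1, h2]
  | insert i s hi ih =>
    intro hsub Tb hTb
    have hs : s ⊆ A := (Finset.subset_insert _ _).trans hsub
    have hiA : i ∈ A := hsub (Finset.mem_insert_self _ _)
    obtain ⟨Tc, hTc⟩ := M.exists_T hF hv hAF hAne hAmax
      (ε := fun l => if l ∈ s then -ε l else ε l) (hsgn s)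
    have h1 := ih hs Tc hTc
    have h2 : Tc = Tb := by
      refine M.flip_one hF hv hAF hAmax hiA (hsgn s) (hsgn (insert i s)) ?_ ?_ hTc hTb
      · intro l hl; simp [Finset.mem_insert, hl]
      · simp [hi]
    rw [h1, h2]

/-- one linear map for all points normed by a maximal set. -/
theorem exists_TA [Nontrivial ι] (hF : FamOK F) {v : X → Y} (hv : SphIso v)
    {A : Finset ι} (hAF : A ∈ F) (hAne : A.Nonempty) (hAmax : ∀ C ∈ F, A ⊆ C → C = A) :
    ∃ T : X ≃L[ℝ] Y, ∀ z, ‖z‖ = 1 → ∑ i ∈ A, |M.c i z| = 1 → v z = T z := by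
  classical
  obtain ⟨T, hT⟩ := M.exists_T hF hv hAF hAne hAmax (ε := fun _ => 1) (fun _ => Or.inl rfl)
  refine ⟨T, fun z hz hzA => ?_⟩
  set s := A.filter (fun l => M.c l z < 0) with hs
  have hsgn : ∀ l, (fun l => if l ∈ s then -(1:ℝ) else 1) l = 1 ∨
      (fun l => if l ∈ s then -(1:ℝ) else 1) l = -1 := by
    intro l
    by_cases h : l ∈ s <;> simp [h]
  obtain ⟨T', hT'⟩ := M.exists_T hF hv hAF hAne hAmax
    (ε := fun l => if l ∈ s then -(1:ℝ) else 1) hsgn
  have h1 := M.flip_many hF hv hAF hAne hAmax (ε := fun _ => 1) (fun _ => Or.inl rfl) hT s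
    (Finset.filter_subset _ _) T' hT'
  rw [h1]
  apply hT' z hz
  rw [M.fn_apply]
  refine Eq.trans (Finset.sum_congr rfl ?_) hzA
  intro l hl
  by_cases h : M.c l z < 0
  · have : l ∈ s := Finset.mem_filter.mpr ⟨hl, h⟩
    simp only [this, if_true]
    rw [abs_of_neg h]; ring
  · have : l ∉ s := fun h' => h (Finset.mem_filter.mp h').2
    simp only [this, if_false]
    rw [abs_of_nonneg (not_lt.mp h)]; ring

theorem norm_eq_of_abs {x y : X} (h : ∀ i, |M.c i x| = |M.c i y|) : ‖x‖ = ‖y‖ := by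
  apply le_antisymm
  · obtain ⟨A, hA, hAe⟩ := M.attained x
    rw [← hAe, Finset.sum_congr rfl (fun i _ => h i)]
    exact M.le_norm A hA y
  · obtain ⟨A, hA, hAe⟩ := M.attained y
    rw [← hAe, Finset.sum_congr rfl (fun i _ => (h i).symm)]
    exact M.le_norm A hA x

theorem eq_of_e {T T' : X →L[ℝ] Y} (h : ∀ i, T (M.e i) = T' (M.e i)) : T = T' := by
  have h1 : (Submodule.span ℝ (Set.range M.e) : Set X) ⊆ {x | T x = T' x} := by
    intro x hx
    have hx' : x ∈ Submodule.span ℝ (Set.range M.e) := hx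
    refine Submodule.span_induction (p := fun x _ => T x = T' x) ?_ ?_ ?_ ?_ hx'
    · rintro _ ⟨i, rfl⟩; exact h i
    · rw [map_zero, map_zero]
    · intro x y _ _ hx hy
      rw [map_add, map_add, hx, hy]
    · intro c x _ hx
      rw [map_smul, map_smul, hx]
  have h2 : IsClosed {x | T x = T' x} := isClosed_eq T.continuous T'.continuous
  ext x
  exact (closure_minimal h1 h2) (M.dense x)

/-- a full vector is normed only by maximal sets. -/
theorem norming_max [Nonempty ι] {x : X} (hx : ∀ i, M.c i x ≠ 0) {B : Finset ι}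
    (hBe : ∑ i ∈ B, |M.c i x| = ‖x‖) : B.Nonempty ∧ ∀ C ∈ F, B ⊆ C → C = B := by
  classical
  constructor
  · rw [Finset.nonempty_iff_ne_empty]
    rintro rfl
    rw [Finset.sum_empty] at hBe
    have h0 : x = 0 := norm_eq_zero.mp hBe.symm
    obtain ⟨i⟩ := ‹Nonempty ι›
    apply hx i
    rw [h0, map_zero]
  · intro C hC hBC
    by_contra hne
    obtain ⟨k, hkC, hkB⟩ : ∃ k ∈ C, k ∉ B := by
      by_contra hcon
      push Not at hcon
      exact hne (Finset.Subset.antisymm hcon hBC)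
    have h1 := M.le_norm C hC x
    have h2 : ∑ i ∈ insert k B, |M.c i x| ≤ ∑ i ∈ C, |M.c i x| := by
      apply Finset.sum_le_sum_of_subset_of_nonneg
      · intro y hy
        rw [Finset.mem_insert] at hy
        rcases hy with rfl | hy
        · exact hkC
        · exact hBC hy
      · intro _ _ _; exact abs_nonneg _
    rw [Finset.sum_insert hkB, hBe] at h2
    have h3 : 0 < |M.c k x| := abs_pos.mpr (hx k)
    linarith

/-- two sets norming the same full vector carry the same linear map. -/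
theorem same_T {v : X → Y} {x : X} [Nonempty ι] (hx : ∀ i, M.c i x ≠ 0) {A B : Finset ι}
    (hA : ∑ i ∈ A, |M.c i x| = ‖x‖) (hB : ∑ i ∈ B, |M.c i x| = ‖x‖) {TA TB : X ≃L[ℝ] Y}
    (hTA : ∀ z, ‖z‖ = 1 → ∑ i ∈ A, |M.c i z| = 1 → v z = TA z)
    (hTB : ∀ z, ‖z‖ = 1 → ∑ i ∈ B, |M.c i z| = 1 → v z = TB z) :
    (TA : X →L[ℝ] Y) = TB := by
  classical
  have hx0 : x ≠ 0 := by
    rintro rfl
    obtain ⟨i⟩ := ‹Nonempty ι›
    exact hx i (map_zero _)
  have hn : 0 < ‖x‖ := norm_pos_iff.mpr hx0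
  have main : ∀ y : X, (∀ i, |M.c i y| = |M.c i x|) → TA y = TB y := by
    intro y hy
    have hny : ‖y‖ = ‖x‖ := M.norm_eq_of_abs hy
    have h1 : ‖‖x‖⁻¹ • y‖ = 1 := by
      rw [norm_smul, hny, norm_inv, norm_norm, inv_mul_cancel₀ hn.ne']
    have h2 : ∀ D : Finset ι, ∑ i ∈ D, |M.c i x| = ‖x‖ →
        ∑ i ∈ D, |M.c i (‖x‖⁻¹ • y)| = 1 := by
      intro D hD
      have : ∀ i ∈ D, |M.c i (‖x‖⁻¹ • y)| = ‖x‖⁻¹ * |M.c i x| := by
        intro i _
        rw [map_smul, smul_eq_mul, abs_mul, abs_of_pos (inv_pos.mpr hn), hy]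
      rw [Finset.sum_congr rfl this, ← Finset.mul_sum, hD, inv_mul_cancel₀ hn.ne']
    have h3 := hTA _ h1 (h2 A hA)
    have h4 := hTB _ h1 (h2 B hB)
    rw [h3, map_smul, map_smul] at h4
    have := congrArg (fun y => ‖x‖ • y) h4
    simpa [smul_smul, mul_inv_cancel₀ hn.ne'] using this
  apply M.eq_of_e
  intro k
  have h1 := main x (fun _ => rfl)
  have h2 := main (x - (2 * M.c k x) • M.e k) (by
    intro i
    rw [map_sub, map_smul, smul_eq_mul]
    by_cases hik : i = k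
    · rw [hik, M.c_e_same, mul_one]
      have : M.c k x - 2 * M.c k x = -(M.c k x) := by ring
      rw [this, abs_neg]
    · rw [M.c_e_ne i k hik, mul_zero, sub_zero])
  rw [map_sub, map_sub, h1] at h2
  have h3 : TA ((2 * M.c k x) • M.e k) = TB ((2 * M.c k x) • M.e k) := sub_right_injective h2
  rw [map_smul, map_smul] at h3
  have h4 : 2 * M.c k x ≠ 0 := mul_ne_zero two_ne_zero (hx k)
  exact (smul_right_inj h4).mp h3

/-- local linearity of the homogeneous extension at full vectors. -/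
theorem rep_full [Nontrivial ι] (hF : FamOK F) {v : X → Y} (hv : SphIso v) {x : X}
    (hx : ∀ i, M.c i x ≠ 0) {A : Finset ι} (hA : ∑ i ∈ A, |M.c i x| = ‖x‖)
    {TA : X ≃L[ℝ] Y} (hTA : ∀ z, ‖z‖ = 1 → ∑ i ∈ A, |M.c i z| = 1 → v z = TA z) :
    Rep (homExt v) x (TA : X →L[ℝ] Y) := by
  have hx0 : x ≠ 0 := by
    rintro rfl
    obtain ⟨i⟩ := (inferInstance : Nonempty ι)
    exact hx i (map_zero _)
  obtain ⟨δ, hδ, hloc⟩ := M.locfin x hx
  have h1 : ∀ᶠ y in 𝓝 x, ‖y - x‖ < δ := by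
    filter_upwards [Metric.ball_mem_nhds x hδ] with y hy
    rwa [← dist_eq_norm]
  filter_upwards [h1, eventually_ne_nhds hx0] with y hy hy0
  obtain ⟨B, hBF, hB⟩ := M.attained y
  have hBx := hloc y hy B hBF hB
  obtain ⟨hBne, hBmax⟩ := M.norming_max hx hBx
  obtain ⟨TB, hTB⟩ := M.exists_TA hF hv hBF hBne hBmax
  have hT := M.same_T hx hA hBx hTA hTB
  have hn : 0 < ‖y‖ := norm_pos_iff.mpr hy0
  unfold homExt
  have h2 : ‖‖y‖⁻¹ • y‖ = 1 := by
    rw [norm_smul, norm_inv, norm_norm, inv_mul_cancel₀ hn.ne']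
  have h3 : ∑ i ∈ B, |M.c i (‖y‖⁻¹ • y)| = 1 := by
    have : ∀ i ∈ B, |M.c i (‖y‖⁻¹ • y)| = ‖y‖⁻¹ * |M.c i y| := by
      intro i _
      rw [map_smul, smul_eq_mul, abs_mul, abs_of_pos (inv_pos.mpr hn)]
    rw [Finset.sum_congr rfl this, ← Finset.mul_sum, hB, inv_mul_cancel₀ hn.ne']
  rw [hTB _ h2 h3, map_smul, smul_smul, mul_inv_cancel₀ hn.ne', one_smul]
  have := congrArg (fun f : X →L[ℝ] Y => f y) hT
  exact this.symm

end Model

end Pool.Agent.Helper194.MUP
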